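import Pool.Agent.Results.MP_162c7e_co.SevenModEight

set_option autoImplicit false

/-! The second family of first rows: `r - 1 = 24 n + 12`, not divisible by nine. -/

namespace Pool.Agent.V11283.KD.B

open Pool.Agent.Results.MP_162c7e_co.SevenModEight

theorem sd1 (m X : ℤ) (h : m ∣ X) (h1 : -m < X) (h2 : X < m) : X = 0 := by
  obtain ⟨k, rfl⟩ := h
  have hk1 : k < 1 := by
    by_contra hc
    push Not at hc
    nlinarith
  have hk2 : -1 < k := by
    by_contra hc
    push Not at hc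
    nlinarith
  have : k = 0 := by omega
  subst this; ring


theorem sd2 (m X : ℤ) (hm : 0 < m) (h : m ∣ X) (h1 : -(2 * m) < X) (h2 : X < 2 * m) :
    X = 0 ∨ X = 1 * m ∨ X = -(1 * m) := by
  obtain ⟨k, rfl⟩ := h
  have hk1 : k < 2 := by
    by_contra hc
    push Not at hc
    nlinarith
  have hk2 : -2 < k := by
    by_contra hc
    push Not at hc
    nlinarith
  interval_cases k <;> omega


theorem sd3 (m X : ℤ) (hm : 0 < m) (h : m ∣ X) (h1 : -(3 * m) < X) (h2 : X < 3 * m) :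
    X = 0 ∨ X = 1 * m ∨ X = -(1 * m) ∨ X = 2 * m ∨ X = -(2 * m) := by
  obtain ⟨k, rfl⟩ := h
  have hk1 : k < 3 := by
    by_contra hc
    push Not at hc
    nlinarith
  have hk2 : -3 < k := by
    by_contra hc
    push Not at hc
    nlinarith
  interval_cases k <;> omega


theorem sd4 (m X : ℤ) (hm : 0 < m) (h : m ∣ X) (h1 : -(4 * m) < X) (h2 : X < 4 * m) :
    X = 0 ∨ X = 1 * m ∨ X = -(1 * m) ∨ X = 2 * m ∨ X = -(2 * m) ∨ X = 3 * m ∨ X = -(3 * m) := by
  obtain ⟨k, rfl⟩ := h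
  have hk1 : k < 4 := by
    by_contra hc
    push Not at hc
    nlinarith
  have hk2 : -4 < k := by
    by_contra hc
    push Not at hc
    nlinarith
  interval_cases k <;> omega


/-- the sequence of the second family -/
def cb (n i : ℕ) : ℤ :=
  if i % 12 = 0 then 2 + 18 * ((i / 12 : ℕ) : ℤ)
  else if i % 12 = 1 then 12 * (n : ℤ) - 1 + 6 * ((i / 12 : ℕ) : ℤ)
  else if i % 12 = 2 then 12 * (n : ℤ) - 7 - 6 * ((i / 12 : ℕ) : ℤ)
  else if i % 12 = 3 then 4 + 18 * ((i / 12 : ℕ) : ℤ)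
  else if i % 12 = 4 then 12 * (n : ℤ) - 3 - 6 * ((i / 12 : ℕ) : ℤ)
  else if i % 12 = 5 then 6 * ((i / 12 : ℕ) : ℤ)
  else if i % 12 = 6 then -12 * (n : ℤ) - 2 + 18 * ((i / 12 : ℕ) : ℤ)
  else if i % 12 = 7 then -6 - 6 * ((i / 12 : ℕ) : ℤ)
  else if i % 12 = 8 then -12 * (n : ℤ) - 4 + 18 * ((i / 12 : ℕ) : ℤ)
  else if i % 12 = 9 then 12 * (n : ℤ) + 3 + 6 * ((i / 12 : ℕ) : ℤ)
  else if i % 12 = 10 then -5 - 6 * ((i / 12 : ℕ) : ℤ)
  else 7 + 6 * ((i / 12 : ℕ) : ℤ)

theorem cb_spec (n i : ℕ) : ∃ t : ℕ,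
    (i = 12 * t + 0 ∧ cb n i = 2 + 18 * (t : ℤ) ∧ cb n (i + 1) = 12 * (n : ℤ) - 1 + 6 * (t : ℤ)) ∨
    (i = 12 * t + 1 ∧ cb n i = 12 * (n : ℤ) - 1 + 6 * (t : ℤ) ∧ cb n (i + 1) = 12 * (n : ℤ) - 7 - 6 * (t : ℤ)) ∨
    (i = 12 * t + 2 ∧ cb n i = 12 * (n : ℤ) - 7 - 6 * (t : ℤ) ∧ cb n (i + 1) = 4 + 18 * (t : ℤ)) ∨
    (i = 12 * t + 3 ∧ cb n i = 4 + 18 * (t : ℤ) ∧ cb n (i + 1) = 12 * (n : ℤ) - 3 - 6 * (t : ℤ)) ∨
    (i = 12 * t + 4 ∧ cb n i = 12 * (n : ℤ) - 3 - 6 * (t : ℤ) ∧ cb n (i + 1) = 6 * (t : ℤ)) ∨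
    (i = 12 * t + 5 ∧ cb n i = 6 * (t : ℤ) ∧ cb n (i + 1) = -12 * (n : ℤ) - 2 + 18 * (t : ℤ)) ∨
    (i = 12 * t + 6 ∧ cb n i = -12 * (n : ℤ) - 2 + 18 * (t : ℤ) ∧ cb n (i + 1) = -6 - 6 * (t : ℤ)) ∨
    (i = 12 * t + 7 ∧ cb n i = -6 - 6 * (t : ℤ) ∧ cb n (i + 1) = -12 * (n : ℤ) - 4 + 18 * (t : ℤ)) ∨
    (i = 12 * t + 8 ∧ cb n i = -12 * (n : ℤ) - 4 + 18 * (t : ℤ) ∧ cb n (i + 1) = 12 * (n : ℤ) + 3 + 6 * (t : ℤ)) ∨
    (i = 12 * t + 9 ∧ cb n i = 12 * (n : ℤ) + 3 + 6 * (t : ℤ) ∧ cb n (i + 1) = -5 - 6 * (t : ℤ)) ∨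
    (i = 12 * t + 10 ∧ cb n i = -5 - 6 * (t : ℤ) ∧ cb n (i + 1) = 7 + 6 * (t : ℤ)) ∨
    (i = 12 * t + 11 ∧ cb n i = 7 + 6 * (t : ℤ) ∧ cb n (i + 1) = 20 + 18 * (t : ℤ)) := by
  refine ⟨i / 12, ?_⟩
  have h8 : i % 12 < 12 := Nat.mod_lt _ (by norm_num)
  have hdm := Nat.div_add_mod i 12
  obtain ⟨t, ht⟩ : ∃ t, t = i / 12 := ⟨_, rfl⟩
  rw [← ht] at hdm ⊢
  interval_cases h : i % 12
  · left
    have h1 : (i + 1) % 12 = 1 := by omega
    have h2 : (i + 1) / 12 = t := by omega
    refine ⟨by omega, ?_, ?_⟩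
    · simp [cb, h, ← ht]
    · simp [cb, h1, h2]
  · right; left
    have h1 : (i + 1) % 12 = 2 := by omega
    have h2 : (i + 1) / 12 = t := by omega
    refine ⟨by omega, ?_, ?_⟩
    · simp [cb, h, ← ht]
    · simp [cb, h1, h2]
  · right; right; left
    have h1 : (i + 1) % 12 = 3 := by omega
    have h2 : (i + 1) / 12 = t := by omega
    refine ⟨by omega, ?_, ?_⟩
    · simp [cb, h, ← ht]
    · simp [cb, h1, h2]
  · right; right; right; left
    have h1 : (i + 1) % 12 = 4 := by omega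
    have h2 : (i + 1) / 12 = t := by omega
    refine ⟨by omega, ?_, ?_⟩
    · simp [cb, h, ← ht]
    · simp [cb, h1, h2]
  · right; right; right; right; left
    have h1 : (i + 1) % 12 = 5 := by omega
    have h2 : (i + 1) / 12 = t := by omega
    refine ⟨by omega, ?_, ?_⟩
    · simp [cb, h, ← ht]
    · simp [cb, h1, h2]
  · right; right; right; right; right; left
    have h1 : (i + 1) % 12 = 6 := by omega
    have h2 : (i + 1) / 12 = t := by omega
    refine ⟨by omega, ?_, ?_⟩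
    · simp [cb, h, ← ht]
    · simp [cb, h1, h2]
  · right; right; right; right; right; right; left
    have h1 : (i + 1) % 12 = 7 := by omega
    have h2 : (i + 1) / 12 = t := by omega
    refine ⟨by omega, ?_, ?_⟩
    · simp [cb, h, ← ht]
    · simp [cb, h1, h2]
  · right; right; right; right; right; right; right; left
    have h1 : (i + 1) % 12 = 8 := by omega
    have h2 : (i + 1) / 12 = t := by omega
    refine ⟨by omega, ?_, ?_⟩
    · simp [cb, h, ← ht]
    · simp [cb, h1, h2]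
  · right; right; right; right; right; right; right; right; left
    have h1 : (i + 1) % 12 = 9 := by omega
    have h2 : (i + 1) / 12 = t := by omega
    refine ⟨by omega, ?_, ?_⟩
    · simp [cb, h, ← ht]
    · simp [cb, h1, h2]
  · right; right; right; right; right; right; right; right; right; left
    have h1 : (i + 1) % 12 = 10 := by omega
    have h2 : (i + 1) / 12 = t := by omega
    refine ⟨by omega, ?_, ?_⟩
    · simp [cb, h, ← ht]
    · simp [cb, h1, h2]
  · right; right; right; right; right; right; right; right; right; right; left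
    have h1 : (i + 1) % 12 = 11 := by omega
    have h2 : (i + 1) / 12 = t := by omega
    refine ⟨by omega, ?_, ?_⟩
    · simp [cb, h, ← ht]
    · simp [cb, h1, h2]
  · right; right; right; right; right; right; right; right; right; right; right
    have h1 : (i + 1) % 12 = 0 := by omega
    have h2 : (i + 1) / 12 = t + 1 := by omega
    refine ⟨by omega, ?_, ?_⟩
    · simp [cb, h, ← ht]
    · simp [cb, h1, h2]; ring

theorem cb_c0 (n i j : ℕ) (h3 : (24 * n + 12) % 9 ≠ 0) (hi : i < 24 * n + 11)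
    (hj : j < 24 * n + 11) (hle : i % 12 ≤ j % 12)
    (h : ((24 * n + 12 : ℕ) : ℤ) ∣ cb n i - cb n j) : i = j := by
  obtain ⟨s, hs⟩ := cb_spec n i
  obtain ⟨t, ht⟩ := cb_spec n j
  rcases hs with hs | hs | hs | hs | hs | hs | hs | hs | hs | hs | hs | hs
  · rcases ht with ht | ht | ht | ht | ht | ht | ht | ht | ht | ht | ht | ht
    · obtain ⟨h1, h2, h5⟩ := hs; obtain ⟨g1, g2, g5⟩ := ht
      rw [h2, g2] at h; clear h2 g2 h5 g5 hle
      rcases sd2 _ _ (by omega) h (by omega) (by omega) with h4 | h4 | h4 <;> (clear h; omega)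
    · obtain ⟨h1, h2, h5⟩ := hs; obtain ⟨g1, g2, g5⟩ := ht
      rw [h2, g2] at h; clear h2 g2 h5 g5 hle
      have h4 := sd1 _ _ h (by omega) (by omega); clear h; omega
    · obtain ⟨h1, h2, h5⟩ := hs; obtain ⟨g1, g2, g5⟩ := ht
      rw [h2, g2] at h; clear h2 g2 h5 g5 hle
      rcases sd2 _ _ (by omega) h (by omega) (by omega) with h4 | h4 | h4 <;> (clear h; omega)
    · obtain ⟨h1, h2, h5⟩ := hs; obtain ⟨g1, g2, g5⟩ := ht
      rw [h2, g2] at h; clear h2 g2 h5 g5 hle
      rcases sd2 _ _ (by omega) h (by omega) (by omega) with h4 | h4 | h4 <;> (clear h; omega)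
    · obtain ⟨h1, h2, h5⟩ := hs; obtain ⟨g1, g2, g5⟩ := ht
      rw [h2, g2] at h; clear h2 g2 h5 g5 hle
      rcases sd2 _ _ (by omega) h (by omega) (by omega) with h4 | h4 | h4 <;> (clear h; omega)
    · obtain ⟨h1, h2, h5⟩ := hs; obtain ⟨g1, g2, g5⟩ := ht
      rw [h2, g2] at h; clear h2 g2 h5 g5 hle
      rcases sd2 _ _ (by omega) h (by omega) (by omega) with h4 | h4 | h4 <;> (clear h; omega)
    · obtain ⟨h1, h2, h5⟩ := hs; obtain ⟨g1, g2, g5⟩ := ht
      rw [h2, g2] at h; clear h2 g2 h5 g5 hle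
      rcases sd2 _ _ (by omega) h (by omega) (by omega) with h4 | h4 | h4 <;> (clear h; omega)
    · obtain ⟨h1, h2, h5⟩ := hs; obtain ⟨g1, g2, g5⟩ := ht
      rw [h2, g2] at h; clear h2 g2 h5 g5 hle
      rcases sd2 _ _ (by omega) h (by omega) (by omega) with h4 | h4 | h4 <;> (clear h; omega)
    · obtain ⟨h1, h2, h5⟩ := hs; obtain ⟨g1, g2, g5⟩ := ht
      rw [h2, g2] at h; clear h2 g2 h5 g5 hle
      rcases sd2 _ _ (by omega) h (by omega) (by omega) with h4 | h4 | h4 <;> (clear h; omega)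
    · obtain ⟨h1, h2, h5⟩ := hs; obtain ⟨g1, g2, g5⟩ := ht
      rw [h2, g2] at h; clear h2 g2 h5 g5 hle
      have h4 := sd1 _ _ h (by omega) (by omega); clear h; omega
    · obtain ⟨h1, h2, h5⟩ := hs; obtain ⟨g1, g2, g5⟩ := ht
      rw [h2, g2] at h; clear h2 g2 h5 g5 hle
      rcases sd2 _ _ (by omega) h (by omega) (by omega) with h4 | h4 | h4 <;> (clear h; omega)
    · obtain ⟨h1, h2, h5⟩ := hs; obtain ⟨g1, g2, g5⟩ := ht
      rw [h2, g2] at h; clear h2 g2 h5 g5 hle
      rcases sd2 _ _ (by omega) h (by omega) (by omega) with h4 | h4 | h4 <;> (clear h; omega)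
  · rcases ht with ht | ht | ht | ht | ht | ht | ht | ht | ht | ht | ht | ht
    · have h1 := hs.1; have g1 := ht.1; clear h hs ht; omega
    · obtain ⟨h1, h2, h5⟩ := hs; obtain ⟨g1, g2, g5⟩ := ht
      rw [h2, g2] at h; clear h2 g2 h5 g5 hle
      have h4 := sd1 _ _ h (by omega) (by omega); clear h; omega
    · obtain ⟨h1, h2, h5⟩ := hs; obtain ⟨g1, g2, g5⟩ := ht
      rw [h2, g2] at h; clear h2 g2 h5 g5 hle
      have h4 := sd1 _ _ h (by omega) (by omega); clear h; omega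
    · obtain ⟨h1, h2, h5⟩ := hs; obtain ⟨g1, g2, g5⟩ := ht
      rw [h2, g2] at h; clear h2 g2 h5 g5 hle
      have h4 := sd1 _ _ h (by omega) (by omega); clear h; omega
    · obtain ⟨h1, h2, h5⟩ := hs; obtain ⟨g1, g2, g5⟩ := ht
      rw [h2, g2] at h; clear h2 g2 h5 g5 hle
      have h4 := sd1 _ _ h (by omega) (by omega); clear h; omega
    · obtain ⟨h1, h2, h5⟩ := hs; obtain ⟨g1, g2, g5⟩ := ht
      rw [h2, g2] at h; clear h2 g2 h5 g5 hle
      have h4 := sd1 _ _ h (by omega) (by omega); clear h; omega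
    · obtain ⟨h1, h2, h5⟩ := hs; obtain ⟨g1, g2, g5⟩ := ht
      rw [h2, g2] at h; clear h2 g2 h5 g5 hle
      rcases sd2 _ _ (by omega) h (by omega) (by omega) with h4 | h4 | h4 <;> (clear h; omega)
    · obtain ⟨h1, h2, h5⟩ := hs; obtain ⟨g1, g2, g5⟩ := ht
      rw [h2, g2] at h; clear h2 g2 h5 g5 hle
      rcases sd2 _ _ (by omega) h (by omega) (by omega) with h4 | h4 | h4 <;> (clear h; omega)
    · obtain ⟨h1, h2, h5⟩ := hs; obtain ⟨g1, g2, g5⟩ := ht
      rw [h2, g2] at h; clear h2 g2 h5 g5 hle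
      rcases sd2 _ _ (by omega) h (by omega) (by omega) with h4 | h4 | h4 <;> (clear h; omega)
    · obtain ⟨h1, h2, h5⟩ := hs; obtain ⟨g1, g2, g5⟩ := ht
      rw [h2, g2] at h; clear h2 g2 h5 g5 hle
      have h4 := sd1 _ _ h (by omega) (by omega); clear h; omega
    · obtain ⟨h1, h2, h5⟩ := hs; obtain ⟨g1, g2, g5⟩ := ht
      rw [h2, g2] at h; clear h2 g2 h5 g5 hle
      rcases sd2 _ _ (by omega) h (by omega) (by omega) with h4 | h4 | h4 <;> (clear h; omega)
    · obtain ⟨h1, h2, h5⟩ := hs; obtain ⟨g1, g2, g5⟩ := ht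
      rw [h2, g2] at h; clear h2 g2 h5 g5 hle
      have h4 := sd1 _ _ h (by omega) (by omega); clear h; omega
  · rcases ht with ht | ht | ht | ht | ht | ht | ht | ht | ht | ht | ht | ht
    · have h1 := hs.1; have g1 := ht.1; clear h hs ht; omega
    · have h1 := hs.1; have g1 := ht.1; clear h hs ht; omega
    · obtain ⟨h1, h2, h5⟩ := hs; obtain ⟨g1, g2, g5⟩ := ht
      rw [h2, g2] at h; clear h2 g2 h5 g5 hle
      have h4 := sd1 _ _ h (by omega) (by omega); clear h; omega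
    · obtain ⟨h1, h2, h5⟩ := hs; obtain ⟨g1, g2, g5⟩ := ht
      rw [h2, g2] at h; clear h2 g2 h5 g5 hle
      rcases sd2 _ _ (by omega) h (by omega) (by omega) with h4 | h4 | h4 <;> (clear h; omega)
    · obtain ⟨h1, h2, h5⟩ := hs; obtain ⟨g1, g2, g5⟩ := ht
      rw [h2, g2] at h; clear h2 g2 h5 g5 hle
      have h4 := sd1 _ _ h (by omega) (by omega); clear h; omega
    · obtain ⟨h1, h2, h5⟩ := hs; obtain ⟨g1, g2, g5⟩ := ht
      rw [h2, g2] at h; clear h2 g2 h5 g5 hle
      have h4 := sd1 _ _ h (by omega) (by omega); clear h; omega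
    · obtain ⟨h1, h2, h5⟩ := hs; obtain ⟨g1, g2, g5⟩ := ht
      rw [h2, g2] at h; clear h2 g2 h5 g5 hle
      have h4 := sd1 _ _ h (by omega) (by omega); clear h; omega
    · obtain ⟨h1, h2, h5⟩ := hs; obtain ⟨g1, g2, g5⟩ := ht
      rw [h2, g2] at h; clear h2 g2 h5 g5 hle
      have h4 := sd1 _ _ h (by omega) (by omega); clear h; omega
    · obtain ⟨h1, h2, h5⟩ := hs; obtain ⟨g1, g2, g5⟩ := ht
      rw [h2, g2] at h; clear h2 g2 h5 g5 hle
      have h4 := sd1 _ _ h (by omega) (by omega); clear h; omega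
    · obtain ⟨h1, h2, h5⟩ := hs; obtain ⟨g1, g2, g5⟩ := ht
      rw [h2, g2] at h; clear h2 g2 h5 g5 hle
      have h4 := sd1 _ _ h (by omega) (by omega); clear h; omega
    · obtain ⟨h1, h2, h5⟩ := hs; obtain ⟨g1, g2, g5⟩ := ht
      rw [h2, g2] at h; clear h2 g2 h5 g5 hle
      have h4 := sd1 _ _ h (by omega) (by omega); clear h; omega
    · obtain ⟨h1, h2, h5⟩ := hs; obtain ⟨g1, g2, g5⟩ := ht
      rw [h2, g2] at h; clear h2 g2 h5 g5 hle
      have h4 := sd1 _ _ h (by omega) (by omega); clear h; omega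
  · rcases ht with ht | ht | ht | ht | ht | ht | ht | ht | ht | ht | ht | ht
    · have h1 := hs.1; have g1 := ht.1; clear h hs ht; omega
    · have h1 := hs.1; have g1 := ht.1; clear h hs ht; omega
    · have h1 := hs.1; have g1 := ht.1; clear h hs ht; omega
    · obtain ⟨h1, h2, h5⟩ := hs; obtain ⟨g1, g2, g5⟩ := ht
      rw [h2, g2] at h; clear h2 g2 h5 g5 hle
      rcases sd2 _ _ (by omega) h (by omega) (by omega) with h4 | h4 | h4 <;> (clear h; omega)
    · obtain ⟨h1, h2, h5⟩ := hs; obtain ⟨g1, g2, g5⟩ := ht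
      rw [h2, g2] at h; clear h2 g2 h5 g5 hle
      rcases sd2 _ _ (by omega) h (by omega) (by omega) with h4 | h4 | h4 <;> (clear h; omega)
    · obtain ⟨h1, h2, h5⟩ := hs; obtain ⟨g1, g2, g5⟩ := ht
      rw [h2, g2] at h; clear h2 g2 h5 g5 hle
      rcases sd2 _ _ (by omega) h (by omega) (by omega) with h4 | h4 | h4 <;> (clear h; omega)
    · obtain ⟨h1, h2, h5⟩ := hs; obtain ⟨g1, g2, g5⟩ := ht
      rw [h2, g2] at h; clear h2 g2 h5 g5 hle
      rcases sd2 _ _ (by omega) h (by omega) (by omega) with h4 | h4 | h4 <;> (clear h; omega)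
    · obtain ⟨h1, h2, h5⟩ := hs; obtain ⟨g1, g2, g5⟩ := ht
      rw [h2, g2] at h; clear h2 g2 h5 g5 hle
      rcases sd2 _ _ (by omega) h (by omega) (by omega) with h4 | h4 | h4 <;> (clear h; omega)
    · obtain ⟨h1, h2, h5⟩ := hs; obtain ⟨g1, g2, g5⟩ := ht
      rw [h2, g2] at h; clear h2 g2 h5 g5 hle
      rcases sd2 _ _ (by omega) h (by omega) (by omega) with h4 | h4 | h4 <;> (clear h; omega)
    · obtain ⟨h1, h2, h5⟩ := hs; obtain ⟨g1, g2, g5⟩ := ht
      rw [h2, g2] at h; clear h2 g2 h5 g5 hle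
      have h4 := sd1 _ _ h (by omega) (by omega); clear h; omega
    · obtain ⟨h1, h2, h5⟩ := hs; obtain ⟨g1, g2, g5⟩ := ht
      rw [h2, g2] at h; clear h2 g2 h5 g5 hle
      rcases sd2 _ _ (by omega) h (by omega) (by omega) with h4 | h4 | h4 <;> (clear h; omega)
    · obtain ⟨h1, h2, h5⟩ := hs; obtain ⟨g1, g2, g5⟩ := ht
      rw [h2, g2] at h; clear h2 g2 h5 g5 hle
      rcases sd2 _ _ (by omega) h (by omega) (by omega) with h4 | h4 | h4 <;> (clear h; omega)
  · rcases ht with ht | ht | ht | ht | ht | ht | ht | ht | ht | ht | ht | ht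
    · have h1 := hs.1; have g1 := ht.1; clear h hs ht; omega
    · have h1 := hs.1; have g1 := ht.1; clear h hs ht; omega
    · have h1 := hs.1; have g1 := ht.1; clear h hs ht; omega
    · have h1 := hs.1; have g1 := ht.1; clear h hs ht; omega
    · obtain ⟨h1, h2, h5⟩ := hs; obtain ⟨g1, g2, g5⟩ := ht
      rw [h2, g2] at h; clear h2 g2 h5 g5 hle
      have h4 := sd1 _ _ h (by omega) (by omega); clear h; omega
    · obtain ⟨h1, h2, h5⟩ := hs; obtain ⟨g1, g2, g5⟩ := ht
      rw [h2, g2] at h; clear h2 g2 h5 g5 hle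
      have h4 := sd1 _ _ h (by omega) (by omega); clear h; omega
    · obtain ⟨h1, h2, h5⟩ := hs; obtain ⟨g1, g2, g5⟩ := ht
      rw [h2, g2] at h; clear h2 g2 h5 g5 hle
      have h4 := sd1 _ _ h (by omega) (by omega); clear h; omega
    · obtain ⟨h1, h2, h5⟩ := hs; obtain ⟨g1, g2, g5⟩ := ht
      rw [h2, g2] at h; clear h2 g2 h5 g5 hle
      have h4 := sd1 _ _ h (by omega) (by omega); clear h; omega
    · obtain ⟨h1, h2, h5⟩ := hs; obtain ⟨g1, g2, g5⟩ := ht
      rw [h2, g2] at h; clear h2 g2 h5 g5 hle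
      have h4 := sd1 _ _ h (by omega) (by omega); clear h; omega
    · obtain ⟨h1, h2, h5⟩ := hs; obtain ⟨g1, g2, g5⟩ := ht
      rw [h2, g2] at h; clear h2 g2 h5 g5 hle
      have h4 := sd1 _ _ h (by omega) (by omega); clear h; omega
    · obtain ⟨h1, h2, h5⟩ := hs; obtain ⟨g1, g2, g5⟩ := ht
      rw [h2, g2] at h; clear h2 g2 h5 g5 hle
      have h4 := sd1 _ _ h (by omega) (by omega); clear h; omega
    · obtain ⟨h1, h2, h5⟩ := hs; obtain ⟨g1, g2, g5⟩ := ht
      rw [h2, g2] at h; clear h2 g2 h5 g5 hle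
      have h4 := sd1 _ _ h (by omega) (by omega); clear h; omega
  · rcases ht with ht | ht | ht | ht | ht | ht | ht | ht | ht | ht | ht | ht
    · have h1 := hs.1; have g1 := ht.1; clear h hs ht; omega
    · have h1 := hs.1; have g1 := ht.1; clear h hs ht; omega
    · have h1 := hs.1; have g1 := ht.1; clear h hs ht; omega
    · have h1 := hs.1; have g1 := ht.1; clear h hs ht; omega
    · have h1 := hs.1; have g1 := ht.1; clear h hs ht; omega
    · obtain ⟨h1, h2, h5⟩ := hs; obtain ⟨g1, g2, g5⟩ := ht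
      rw [h2, g2] at h; clear h2 g2 h5 g5 hle
      have h4 := sd1 _ _ h (by omega) (by omega); clear h; omega
    · obtain ⟨h1, h2, h5⟩ := hs; obtain ⟨g1, g2, g5⟩ := ht
      rw [h2, g2] at h; clear h2 g2 h5 g5 hle
      have h4 := sd1 _ _ h (by omega) (by omega); clear h; omega
    · obtain ⟨h1, h2, h5⟩ := hs; obtain ⟨g1, g2, g5⟩ := ht
      rw [h2, g2] at h; clear h2 g2 h5 g5 hle
      have h4 := sd1 _ _ h (by omega) (by omega); clear h; omega
    · obtain ⟨h1, h2, h5⟩ := hs; obtain ⟨g1, g2, g5⟩ := ht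
      rw [h2, g2] at h; clear h2 g2 h5 g5 hle
      have h4 := sd1 _ _ h (by omega) (by omega); clear h; omega
    · obtain ⟨h1, h2, h5⟩ := hs; obtain ⟨g1, g2, g5⟩ := ht
      rw [h2, g2] at h; clear h2 g2 h5 g5 hle
      have h4 := sd1 _ _ h (by omega) (by omega); clear h; omega
    · obtain ⟨h1, h2, h5⟩ := hs; obtain ⟨g1, g2, g5⟩ := ht
      rw [h2, g2] at h; clear h2 g2 h5 g5 hle
      have h4 := sd1 _ _ h (by omega) (by omega); clear h; omega
    · obtain ⟨h1, h2, h5⟩ := hs; obtain ⟨g1, g2, g5⟩ := ht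
      rw [h2, g2] at h; clear h2 g2 h5 g5 hle
      have h4 := sd1 _ _ h (by omega) (by omega); clear h; omega
  · rcases ht with ht | ht | ht | ht | ht | ht | ht | ht | ht | ht | ht | ht
    · have h1 := hs.1; have g1 := ht.1; clear h hs ht; omega
    · have h1 := hs.1; have g1 := ht.1; clear h hs ht; omega
    · have h1 := hs.1; have g1 := ht.1; clear h hs ht; omega
    · have h1 := hs.1; have g1 := ht.1; clear h hs ht; omega
    · have h1 := hs.1; have g1 := ht.1; clear h hs ht; omega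
    · have h1 := hs.1; have g1 := ht.1; clear h hs ht; omega
    · obtain ⟨h1, h2, h5⟩ := hs; obtain ⟨g1, g2, g5⟩ := ht
      rw [h2, g2] at h; clear h2 g2 h5 g5 hle
      rcases sd2 _ _ (by omega) h (by omega) (by omega) with h4 | h4 | h4 <;> (clear h; omega)
    · obtain ⟨h1, h2, h5⟩ := hs; obtain ⟨g1, g2, g5⟩ := ht
      rw [h2, g2] at h; clear h2 g2 h5 g5 hle
      rcases sd2 _ _ (by omega) h (by omega) (by omega) with h4 | h4 | h4 <;> (clear h; omega)
    · obtain ⟨h1, h2, h5⟩ := hs; obtain ⟨g1, g2, g5⟩ := ht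
      rw [h2, g2] at h; clear h2 g2 h5 g5 hle
      rcases sd2 _ _ (by omega) h (by omega) (by omega) with h4 | h4 | h4 <;> (clear h; omega)
    · obtain ⟨h1, h2, h5⟩ := hs; obtain ⟨g1, g2, g5⟩ := ht
      rw [h2, g2] at h; clear h2 g2 h5 g5 hle
      rcases sd2 _ _ (by omega) h (by omega) (by omega) with h4 | h4 | h4 <;> (clear h; omega)
    · obtain ⟨h1, h2, h5⟩ := hs; obtain ⟨g1, g2, g5⟩ := ht
      rw [h2, g2] at h; clear h2 g2 h5 g5 hle
      rcases sd2 _ _ (by omega) h (by omega) (by omega) with h4 | h4 | h4 <;> (clear h; omega)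
    · obtain ⟨h1, h2, h5⟩ := hs; obtain ⟨g1, g2, g5⟩ := ht
      rw [h2, g2] at h; clear h2 g2 h5 g5 hle
      have h4 := sd1 _ _ h (by omega) (by omega); clear h; omega
  · rcases ht with ht | ht | ht | ht | ht | ht | ht | ht | ht | ht | ht | ht
    · have h1 := hs.1; have g1 := ht.1; clear h hs ht; omega
    · have h1 := hs.1; have g1 := ht.1; clear h hs ht; omega
    · have h1 := hs.1; have g1 := ht.1; clear h hs ht; omega
    · have h1 := hs.1; have g1 := ht.1; clear h hs ht; omega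
    · have h1 := hs.1; have g1 := ht.1; clear h hs ht; omega
    · have h1 := hs.1; have g1 := ht.1; clear h hs ht; omega
    · have h1 := hs.1; have g1 := ht.1; clear h hs ht; omega
    · obtain ⟨h1, h2, h5⟩ := hs; obtain ⟨g1, g2, g5⟩ := ht
      rw [h2, g2] at h; clear h2 g2 h5 g5 hle
      have h4 := sd1 _ _ h (by omega) (by omega); clear h; omega
    · obtain ⟨h1, h2, h5⟩ := hs; obtain ⟨g1, g2, g5⟩ := ht
      rw [h2, g2] at h; clear h2 g2 h5 g5 hle
      rcases sd2 _ _ (by omega) h (by omega) (by omega) with h4 | h4 | h4 <;> (clear h; omega)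
    · obtain ⟨h1, h2, h5⟩ := hs; obtain ⟨g1, g2, g5⟩ := ht
      rw [h2, g2] at h; clear h2 g2 h5 g5 hle
      rcases sd2 _ _ (by omega) h (by omega) (by omega) with h4 | h4 | h4 <;> (clear h; omega)
    · obtain ⟨h1, h2, h5⟩ := hs; obtain ⟨g1, g2, g5⟩ := ht
      rw [h2, g2] at h; clear h2 g2 h5 g5 hle
      have h4 := sd1 _ _ h (by omega) (by omega); clear h; omega
    · obtain ⟨h1, h2, h5⟩ := hs; obtain ⟨g1, g2, g5⟩ := ht
      rw [h2, g2] at h; clear h2 g2 h5 g5 hle
      have h4 := sd1 _ _ h (by omega) (by omega); clear h; omega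
  · rcases ht with ht | ht | ht | ht | ht | ht | ht | ht | ht | ht | ht | ht
    · have h1 := hs.1; have g1 := ht.1; clear h hs ht; omega
    · have h1 := hs.1; have g1 := ht.1; clear h hs ht; omega
    · have h1 := hs.1; have g1 := ht.1; clear h hs ht; omega
    · have h1 := hs.1; have g1 := ht.1; clear h hs ht; omega
    · have h1 := hs.1; have g1 := ht.1; clear h hs ht; omega
    · have h1 := hs.1; have g1 := ht.1; clear h hs ht; omega
    · have h1 := hs.1; have g1 := ht.1; clear h hs ht; omega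
    · have h1 := hs.1; have g1 := ht.1; clear h hs ht; omega
    · obtain ⟨h1, h2, h5⟩ := hs; obtain ⟨g1, g2, g5⟩ := ht
      rw [h2, g2] at h; clear h2 g2 h5 g5 hle
      rcases sd2 _ _ (by omega) h (by omega) (by omega) with h4 | h4 | h4 <;> (clear h; omega)
    · obtain ⟨h1, h2, h5⟩ := hs; obtain ⟨g1, g2, g5⟩ := ht
      rw [h2, g2] at h; clear h2 g2 h5 g5 hle
      rcases sd2 _ _ (by omega) h (by omega) (by omega) with h4 | h4 | h4 <;> (clear h; omega)
    · obtain ⟨h1, h2, h5⟩ := hs; obtain ⟨g1, g2, g5⟩ := ht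
      rw [h2, g2] at h; clear h2 g2 h5 g5 hle
      rcases sd2 _ _ (by omega) h (by omega) (by omega) with h4 | h4 | h4 <;> (clear h; omega)
    · obtain ⟨h1, h2, h5⟩ := hs; obtain ⟨g1, g2, g5⟩ := ht
      rw [h2, g2] at h; clear h2 g2 h5 g5 hle
      have h4 := sd1 _ _ h (by omega) (by omega); clear h; omega
  · rcases ht with ht | ht | ht | ht | ht | ht | ht | ht | ht | ht | ht | ht
    · have h1 := hs.1; have g1 := ht.1; clear h hs ht; omega
    · have h1 := hs.1; have g1 := ht.1; clear h hs ht; omega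
    · have h1 := hs.1; have g1 := ht.1; clear h hs ht; omega
    · have h1 := hs.1; have g1 := ht.1; clear h hs ht; omega
    · have h1 := hs.1; have g1 := ht.1; clear h hs ht; omega
    · have h1 := hs.1; have g1 := ht.1; clear h hs ht; omega
    · have h1 := hs.1; have g1 := ht.1; clear h hs ht; omega
    · have h1 := hs.1; have g1 := ht.1; clear h hs ht; omega
    · have h1 := hs.1; have g1 := ht.1; clear h hs ht; omega
    · obtain ⟨h1, h2, h5⟩ := hs; obtain ⟨g1, g2, g5⟩ := ht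
      rw [h2, g2] at h; clear h2 g2 h5 g5 hle
      have h4 := sd1 _ _ h (by omega) (by omega); clear h; omega
    · obtain ⟨h1, h2, h5⟩ := hs; obtain ⟨g1, g2, g5⟩ := ht
      rw [h2, g2] at h; clear h2 g2 h5 g5 hle
      rcases sd2 _ _ (by omega) h (by omega) (by omega) with h4 | h4 | h4 <;> (clear h; omega)
    · obtain ⟨h1, h2, h5⟩ := hs; obtain ⟨g1, g2, g5⟩ := ht
      rw [h2, g2] at h; clear h2 g2 h5 g5 hle
      have h4 := sd1 _ _ h (by omega) (by omega); clear h; omega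
  · rcases ht with ht | ht | ht | ht | ht | ht | ht | ht | ht | ht | ht | ht
    · have h1 := hs.1; have g1 := ht.1; clear h hs ht; omega
    · have h1 := hs.1; have g1 := ht.1; clear h hs ht; omega
    · have h1 := hs.1; have g1 := ht.1; clear h hs ht; omega
    · have h1 := hs.1; have g1 := ht.1; clear h hs ht; omega
    · have h1 := hs.1; have g1 := ht.1; clear h hs ht; omega
    · have h1 := hs.1; have g1 := ht.1; clear h hs ht; omega
    · have h1 := hs.1; have g1 := ht.1; clear h hs ht; omega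
    · have h1 := hs.1; have g1 := ht.1; clear h hs ht; omega
    · have h1 := hs.1; have g1 := ht.1; clear h hs ht; omega
    · have h1 := hs.1; have g1 := ht.1; clear h hs ht; omega
    · obtain ⟨h1, h2, h5⟩ := hs; obtain ⟨g1, g2, g5⟩ := ht
      rw [h2, g2] at h; clear h2 g2 h5 g5 hle
      have h4 := sd1 _ _ h (by omega) (by omega); clear h; omega
    · obtain ⟨h1, h2, h5⟩ := hs; obtain ⟨g1, g2, g5⟩ := ht
      rw [h2, g2] at h; clear h2 g2 h5 g5 hle
      have h4 := sd1 _ _ h (by omega) (by omega); clear h; omega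
  · rcases ht with ht | ht | ht | ht | ht | ht | ht | ht | ht | ht | ht | ht
    · have h1 := hs.1; have g1 := ht.1; clear h hs ht; omega
    · have h1 := hs.1; have g1 := ht.1; clear h hs ht; omega
    · have h1 := hs.1; have g1 := ht.1; clear h hs ht; omega
    · have h1 := hs.1; have g1 := ht.1; clear h hs ht; omega
    · have h1 := hs.1; have g1 := ht.1; clear h hs ht; omega
    · have h1 := hs.1; have g1 := ht.1; clear h hs ht; omega
    · have h1 := hs.1; have g1 := ht.1; clear h hs ht; omega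
    · have h1 := hs.1; have g1 := ht.1; clear h hs ht; omega
    · have h1 := hs.1; have g1 := ht.1; clear h hs ht; omega
    · have h1 := hs.1; have g1 := ht.1; clear h hs ht; omega
    · have h1 := hs.1; have g1 := ht.1; clear h hs ht; omega
    · obtain ⟨h1, h2, h5⟩ := hs; obtain ⟨g1, g2, g5⟩ := ht
      rw [h2, g2] at h; clear h2 g2 h5 g5 hle
      have h4 := sd1 _ _ h (by omega) (by omega); clear h; omega


theorem cb_c (n i j : ℕ) (h3 : (24 * n + 12) % 9 ≠ 0) (hi : i < 24 * n + 11) (hj : j < 24 * n + 11)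
    (h : ((24 * n + 12 : ℕ) : ℤ) ∣ cb n i - cb n j) : i = j := by
  rcases Nat.le_total (i % 12) (j % 12) with hle | hle
  · exact cb_c0 n i j h3 hi hj hle h
  · refine (cb_c0 n j i h3 hj hi hle ?_).symm
    have h2 := dvd_neg.2 h
    rwa [neg_sub] at h2

theorem cb_b0 (n i j : ℕ) (h3 : (24 * n + 12) % 9 ≠ 0) (hi : i < 24 * n + 11)
    (hj : j < 24 * n + 11) (hle : i % 12 ≤ j % 12)
    (h : ((24 * n + 12 : ℕ) : ℤ) ∣ (cb n i - i) - (cb n j - j)) : i = j := by
  obtain ⟨s, hs⟩ := cb_spec n i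
  obtain ⟨t, ht⟩ := cb_spec n j
  rcases hs with hs | hs | hs | hs | hs | hs | hs | hs | hs | hs | hs | hs
  · rcases ht with ht | ht | ht | ht | ht | ht | ht | ht | ht | ht | ht | ht
    · obtain ⟨h1, h2, h5⟩ := hs; obtain ⟨g1, g2, g5⟩ := ht
      rw [h2, g2] at h; clear h2 g2 h5 g5 hle
      have h4 := sd1 _ _ h (by omega) (by omega); clear h; omega
    · obtain ⟨h1, h2, h5⟩ := hs; obtain ⟨g1, g2, g5⟩ := ht
      rw [h2, g2] at h; clear h2 g2 h5 g5 hle
      have h4 := sd1 _ _ h (by omega) (by omega); clear h; omega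
    · obtain ⟨h1, h2, h5⟩ := hs; obtain ⟨g1, g2, g5⟩ := ht
      rw [h2, g2] at h; clear h2 g2 h5 g5 hle
      rcases sd2 _ _ (by omega) h (by omega) (by omega) with h4 | h4 | h4 <;> (clear h; omega)
    · obtain ⟨h1, h2, h5⟩ := hs; obtain ⟨g1, g2, g5⟩ := ht
      rw [h2, g2] at h; clear h2 g2 h5 g5 hle
      have h4 := sd1 _ _ h (by omega) (by omega); clear h; omega
    · obtain ⟨h1, h2, h5⟩ := hs; obtain ⟨g1, g2, g5⟩ := ht
      rw [h2, g2] at h; clear h2 g2 h5 g5 hle
      rcases sd2 _ _ (by omega) h (by omega) (by omega) with h4 | h4 | h4 <;> (clear h; omega)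
    · obtain ⟨h1, h2, h5⟩ := hs; obtain ⟨g1, g2, g5⟩ := ht
      rw [h2, g2] at h; clear h2 g2 h5 g5 hle
      have h4 := sd1 _ _ h (by omega) (by omega); clear h; omega
    · obtain ⟨h1, h2, h5⟩ := hs; obtain ⟨g1, g2, g5⟩ := ht
      rw [h2, g2] at h; clear h2 g2 h5 g5 hle
      have h4 := sd1 _ _ h (by omega) (by omega); clear h; omega
    · obtain ⟨h1, h2, h5⟩ := hs; obtain ⟨g1, g2, g5⟩ := ht
      rw [h2, g2] at h; clear h2 g2 h5 g5 hle
      rcases sd2 _ _ (by omega) h (by omega) (by omega) with h4 | h4 | h4 <;> (clear h; omega)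
    · obtain ⟨h1, h2, h5⟩ := hs; obtain ⟨g1, g2, g5⟩ := ht
      rw [h2, g2] at h; clear h2 g2 h5 g5 hle
      rcases sd2 _ _ (by omega) h (by omega) (by omega) with h4 | h4 | h4 <;> (clear h; omega)
    · obtain ⟨h1, h2, h5⟩ := hs; obtain ⟨g1, g2, g5⟩ := ht
      rw [h2, g2] at h; clear h2 g2 h5 g5 hle
      have h4 := sd1 _ _ h (by omega) (by omega); clear h; omega
    · obtain ⟨h1, h2, h5⟩ := hs; obtain ⟨g1, g2, g5⟩ := ht
      rw [h2, g2] at h; clear h2 g2 h5 g5 hle
      rcases sd2 _ _ (by omega) h (by omega) (by omega) with h4 | h4 | h4 <;> (clear h; omega)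
    · obtain ⟨h1, h2, h5⟩ := hs; obtain ⟨g1, g2, g5⟩ := ht
      rw [h2, g2] at h; clear h2 g2 h5 g5 hle
      have h4 := sd1 _ _ h (by omega) (by omega); clear h; omega
  · rcases ht with ht | ht | ht | ht | ht | ht | ht | ht | ht | ht | ht | ht
    · have h1 := hs.1; have g1 := ht.1; clear h hs ht; omega
    · obtain ⟨h1, h2, h5⟩ := hs; obtain ⟨g1, g2, g5⟩ := ht
      rw [h2, g2] at h; clear h2 g2 h5 g5 hle
      have h4 := sd1 _ _ h (by omega) (by omega); clear h; omega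
    · obtain ⟨h1, h2, h5⟩ := hs; obtain ⟨g1, g2, g5⟩ := ht
      rw [h2, g2] at h; clear h2 g2 h5 g5 hle
      rcases sd2 _ _ (by omega) h (by omega) (by omega) with h4 | h4 | h4 <;> (clear h; omega)
    · obtain ⟨h1, h2, h5⟩ := hs; obtain ⟨g1, g2, g5⟩ := ht
      rw [h2, g2] at h; clear h2 g2 h5 g5 hle
      have h4 := sd1 _ _ h (by omega) (by omega); clear h; omega
    · obtain ⟨h1, h2, h5⟩ := hs; obtain ⟨g1, g2, g5⟩ := ht
      rw [h2, g2] at h; clear h2 g2 h5 g5 hle
      rcases sd2 _ _ (by omega) h (by omega) (by omega) with h4 | h4 | h4 <;> (clear h; omega)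
    · obtain ⟨h1, h2, h5⟩ := hs; obtain ⟨g1, g2, g5⟩ := ht
      rw [h2, g2] at h; clear h2 g2 h5 g5 hle
      have h4 := sd1 _ _ h (by omega) (by omega); clear h; omega
    · obtain ⟨h1, h2, h5⟩ := hs; obtain ⟨g1, g2, g5⟩ := ht
      rw [h2, g2] at h; clear h2 g2 h5 g5 hle
      have h4 := sd1 _ _ h (by omega) (by omega); clear h; omega
    · obtain ⟨h1, h2, h5⟩ := hs; obtain ⟨g1, g2, g5⟩ := ht
      rw [h2, g2] at h; clear h2 g2 h5 g5 hle
      rcases sd2 _ _ (by omega) h (by omega) (by omega) with h4 | h4 | h4 <;> (clear h; omega)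
    · obtain ⟨h1, h2, h5⟩ := hs; obtain ⟨g1, g2, g5⟩ := ht
      rw [h2, g2] at h; clear h2 g2 h5 g5 hle
      have h4 := sd1 _ _ h (by omega) (by omega); clear h; omega
    · obtain ⟨h1, h2, h5⟩ := hs; obtain ⟨g1, g2, g5⟩ := ht
      rw [h2, g2] at h; clear h2 g2 h5 g5 hle
      have h4 := sd1 _ _ h (by omega) (by omega); clear h; omega
    · obtain ⟨h1, h2, h5⟩ := hs; obtain ⟨g1, g2, g5⟩ := ht
      rw [h2, g2] at h; clear h2 g2 h5 g5 hle
      rcases sd2 _ _ (by omega) h (by omega) (by omega) with h4 | h4 | h4 <;> (clear h; omega)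
    · obtain ⟨h1, h2, h5⟩ := hs; obtain ⟨g1, g2, g5⟩ := ht
      rw [h2, g2] at h; clear h2 g2 h5 g5 hle
      have h4 := sd1 _ _ h (by omega) (by omega); clear h; omega
  · rcases ht with ht | ht | ht | ht | ht | ht | ht | ht | ht | ht | ht | ht
    · have h1 := hs.1; have g1 := ht.1; clear h hs ht; omega
    · have h1 := hs.1; have g1 := ht.1; clear h hs ht; omega
    · obtain ⟨h1, h2, h5⟩ := hs; obtain ⟨g1, g2, g5⟩ := ht
      rw [h2, g2] at h; clear h2 g2 h5 g5 hle
      rcases sd2 _ _ (by omega) h (by omega) (by omega) with h4 | h4 | h4 <;> (clear h; omega)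
    · obtain ⟨h1, h2, h5⟩ := hs; obtain ⟨g1, g2, g5⟩ := ht
      rw [h2, g2] at h; clear h2 g2 h5 g5 hle
      rcases sd2 _ _ (by omega) h (by omega) (by omega) with h4 | h4 | h4 <;> (clear h; omega)
    · obtain ⟨h1, h2, h5⟩ := hs; obtain ⟨g1, g2, g5⟩ := ht
      rw [h2, g2] at h; clear h2 g2 h5 g5 hle
      rcases sd2 _ _ (by omega) h (by omega) (by omega) with h4 | h4 | h4 <;> (clear h; omega)
    · obtain ⟨h1, h2, h5⟩ := hs; obtain ⟨g1, g2, g5⟩ := ht
      rw [h2, g2] at h; clear h2 g2 h5 g5 hle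
      have h4 := sd1 _ _ h (by omega) (by omega); clear h; omega
    · obtain ⟨h1, h2, h5⟩ := hs; obtain ⟨g1, g2, g5⟩ := ht
      rw [h2, g2] at h; clear h2 g2 h5 g5 hle
      have h4 := sd1 _ _ h (by omega) (by omega); clear h; omega
    · obtain ⟨h1, h2, h5⟩ := hs; obtain ⟨g1, g2, g5⟩ := ht
      rw [h2, g2] at h; clear h2 g2 h5 g5 hle
      rcases sd2 _ _ (by omega) h (by omega) (by omega) with h4 | h4 | h4 <;> (clear h; omega)
    · obtain ⟨h1, h2, h5⟩ := hs; obtain ⟨g1, g2, g5⟩ := ht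
      rw [h2, g2] at h; clear h2 g2 h5 g5 hle
      have h4 := sd1 _ _ h (by omega) (by omega); clear h; omega
    · obtain ⟨h1, h2, h5⟩ := hs; obtain ⟨g1, g2, g5⟩ := ht
      rw [h2, g2] at h; clear h2 g2 h5 g5 hle
      rcases sd2 _ _ (by omega) h (by omega) (by omega) with h4 | h4 | h4 <;> (clear h; omega)
    · obtain ⟨h1, h2, h5⟩ := hs; obtain ⟨g1, g2, g5⟩ := ht
      rw [h2, g2] at h; clear h2 g2 h5 g5 hle
      rcases sd2 _ _ (by omega) h (by omega) (by omega) with h4 | h4 | h4 <;> (clear h; omega)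
    · obtain ⟨h1, h2, h5⟩ := hs; obtain ⟨g1, g2, g5⟩ := ht
      rw [h2, g2] at h; clear h2 g2 h5 g5 hle
      have h4 := sd1 _ _ h (by omega) (by omega); clear h; omega
  · rcases ht with ht | ht | ht | ht | ht | ht | ht | ht | ht | ht | ht | ht
    · have h1 := hs.1; have g1 := ht.1; clear h hs ht; omega
    · have h1 := hs.1; have g1 := ht.1; clear h hs ht; omega
    · have h1 := hs.1; have g1 := ht.1; clear h hs ht; omega
    · obtain ⟨h1, h2, h5⟩ := hs; obtain ⟨g1, g2, g5⟩ := ht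
      rw [h2, g2] at h; clear h2 g2 h5 g5 hle
      have h4 := sd1 _ _ h (by omega) (by omega); clear h; omega
    · obtain ⟨h1, h2, h5⟩ := hs; obtain ⟨g1, g2, g5⟩ := ht
      rw [h2, g2] at h; clear h2 g2 h5 g5 hle
      rcases sd2 _ _ (by omega) h (by omega) (by omega) with h4 | h4 | h4 <;> (clear h; omega)
    · obtain ⟨h1, h2, h5⟩ := hs; obtain ⟨g1, g2, g5⟩ := ht
      rw [h2, g2] at h; clear h2 g2 h5 g5 hle
      have h4 := sd1 _ _ h (by omega) (by omega); clear h; omega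
    · obtain ⟨h1, h2, h5⟩ := hs; obtain ⟨g1, g2, g5⟩ := ht
      rw [h2, g2] at h; clear h2 g2 h5 g5 hle
      have h4 := sd1 _ _ h (by omega) (by omega); clear h; omega
    · obtain ⟨h1, h2, h5⟩ := hs; obtain ⟨g1, g2, g5⟩ := ht
      rw [h2, g2] at h; clear h2 g2 h5 g5 hle
      rcases sd2 _ _ (by omega) h (by omega) (by omega) with h4 | h4 | h4 <;> (clear h; omega)
    · obtain ⟨h1, h2, h5⟩ := hs; obtain ⟨g1, g2, g5⟩ := ht
      rw [h2, g2] at h; clear h2 g2 h5 g5 hle
      rcases sd2 _ _ (by omega) h (by omega) (by omega) with h4 | h4 | h4 <;> (clear h; omega)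
    · obtain ⟨h1, h2, h5⟩ := hs; obtain ⟨g1, g2, g5⟩ := ht
      rw [h2, g2] at h; clear h2 g2 h5 g5 hle
      have h4 := sd1 _ _ h (by omega) (by omega); clear h; omega
    · obtain ⟨h1, h2, h5⟩ := hs; obtain ⟨g1, g2, g5⟩ := ht
      rw [h2, g2] at h; clear h2 g2 h5 g5 hle
      rcases sd2 _ _ (by omega) h (by omega) (by omega) with h4 | h4 | h4 <;> (clear h; omega)
    · obtain ⟨h1, h2, h5⟩ := hs; obtain ⟨g1, g2, g5⟩ := ht
      rw [h2, g2] at h; clear h2 g2 h5 g5 hle
      have h4 := sd1 _ _ h (by omega) (by omega); clear h; omega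
  · rcases ht with ht | ht | ht | ht | ht | ht | ht | ht | ht | ht | ht | ht
    · have h1 := hs.1; have g1 := ht.1; clear h hs ht; omega
    · have h1 := hs.1; have g1 := ht.1; clear h hs ht; omega
    · have h1 := hs.1; have g1 := ht.1; clear h hs ht; omega
    · have h1 := hs.1; have g1 := ht.1; clear h hs ht; omega
    · obtain ⟨h1, h2, h5⟩ := hs; obtain ⟨g1, g2, g5⟩ := ht
      rw [h2, g2] at h; clear h2 g2 h5 g5 hle
      rcases sd2 _ _ (by omega) h (by omega) (by omega) with h4 | h4 | h4 <;> (clear h; omega)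
    · obtain ⟨h1, h2, h5⟩ := hs; obtain ⟨g1, g2, g5⟩ := ht
      rw [h2, g2] at h; clear h2 g2 h5 g5 hle
      have h4 := sd1 _ _ h (by omega) (by omega); clear h; omega
    · obtain ⟨h1, h2, h5⟩ := hs; obtain ⟨g1, g2, g5⟩ := ht
      rw [h2, g2] at h; clear h2 g2 h5 g5 hle
      have h4 := sd1 _ _ h (by omega) (by omega); clear h; omega
    · obtain ⟨h1, h2, h5⟩ := hs; obtain ⟨g1, g2, g5⟩ := ht
      rw [h2, g2] at h; clear h2 g2 h5 g5 hle
      rcases sd2 _ _ (by omega) h (by omega) (by omega) with h4 | h4 | h4 <;> (clear h; omega)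
    · obtain ⟨h1, h2, h5⟩ := hs; obtain ⟨g1, g2, g5⟩ := ht
      rw [h2, g2] at h; clear h2 g2 h5 g5 hle
      have h4 := sd1 _ _ h (by omega) (by omega); clear h; omega
    · obtain ⟨h1, h2, h5⟩ := hs; obtain ⟨g1, g2, g5⟩ := ht
      rw [h2, g2] at h; clear h2 g2 h5 g5 hle
      rcases sd2 _ _ (by omega) h (by omega) (by omega) with h4 | h4 | h4 <;> (clear h; omega)
    · obtain ⟨h1, h2, h5⟩ := hs; obtain ⟨g1, g2, g5⟩ := ht
      rw [h2, g2] at h; clear h2 g2 h5 g5 hle
      rcases sd2 _ _ (by omega) h (by omega) (by omega) with h4 | h4 | h4 <;> (clear h; omega)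
    · obtain ⟨h1, h2, h5⟩ := hs; obtain ⟨g1, g2, g5⟩ := ht
      rw [h2, g2] at h; clear h2 g2 h5 g5 hle
      have h4 := sd1 _ _ h (by omega) (by omega); clear h; omega
  · rcases ht with ht | ht | ht | ht | ht | ht | ht | ht | ht | ht | ht | ht
    · have h1 := hs.1; have g1 := ht.1; clear h hs ht; omega
    · have h1 := hs.1; have g1 := ht.1; clear h hs ht; omega
    · have h1 := hs.1; have g1 := ht.1; clear h hs ht; omega
    · have h1 := hs.1; have g1 := ht.1; clear h hs ht; omega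
    · have h1 := hs.1; have g1 := ht.1; clear h hs ht; omega
    · obtain ⟨h1, h2, h5⟩ := hs; obtain ⟨g1, g2, g5⟩ := ht
      rw [h2, g2] at h; clear h2 g2 h5 g5 hle
      have h4 := sd1 _ _ h (by omega) (by omega); clear h; omega
    · obtain ⟨h1, h2, h5⟩ := hs; obtain ⟨g1, g2, g5⟩ := ht
      rw [h2, g2] at h; clear h2 g2 h5 g5 hle
      have h4 := sd1 _ _ h (by omega) (by omega); clear h; omega
    · obtain ⟨h1, h2, h5⟩ := hs; obtain ⟨g1, g2, g5⟩ := ht
      rw [h2, g2] at h; clear h2 g2 h5 g5 hle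
      rcases sd2 _ _ (by omega) h (by omega) (by omega) with h4 | h4 | h4 <;> (clear h; omega)
    · obtain ⟨h1, h2, h5⟩ := hs; obtain ⟨g1, g2, g5⟩ := ht
      rw [h2, g2] at h; clear h2 g2 h5 g5 hle
      have h4 := sd1 _ _ h (by omega) (by omega); clear h; omega
    · obtain ⟨h1, h2, h5⟩ := hs; obtain ⟨g1, g2, g5⟩ := ht
      rw [h2, g2] at h; clear h2 g2 h5 g5 hle
      have h4 := sd1 _ _ h (by omega) (by omega); clear h; omega
    · obtain ⟨h1, h2, h5⟩ := hs; obtain ⟨g1, g2, g5⟩ := ht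
      rw [h2, g2] at h; clear h2 g2 h5 g5 hle
      rcases sd2 _ _ (by omega) h (by omega) (by omega) with h4 | h4 | h4 <;> (clear h; omega)
    · obtain ⟨h1, h2, h5⟩ := hs; obtain ⟨g1, g2, g5⟩ := ht
      rw [h2, g2] at h; clear h2 g2 h5 g5 hle
      have h4 := sd1 _ _ h (by omega) (by omega); clear h; omega
  · rcases ht with ht | ht | ht | ht | ht | ht | ht | ht | ht | ht | ht | ht
    · have h1 := hs.1; have g1 := ht.1; clear h hs ht; omega
    · have h1 := hs.1; have g1 := ht.1; clear h hs ht; omega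
    · have h1 := hs.1; have g1 := ht.1; clear h hs ht; omega
    · have h1 := hs.1; have g1 := ht.1; clear h hs ht; omega
    · have h1 := hs.1; have g1 := ht.1; clear h hs ht; omega
    · have h1 := hs.1; have g1 := ht.1; clear h hs ht; omega
    · obtain ⟨h1, h2, h5⟩ := hs; obtain ⟨g1, g2, g5⟩ := ht
      rw [h2, g2] at h; clear h2 g2 h5 g5 hle
      have h4 := sd1 _ _ h (by omega) (by omega); clear h; omega
    · obtain ⟨h1, h2, h5⟩ := hs; obtain ⟨g1, g2, g5⟩ := ht
      rw [h2, g2] at h; clear h2 g2 h5 g5 hle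
      rcases sd2 _ _ (by omega) h (by omega) (by omega) with h4 | h4 | h4 <;> (clear h; omega)
    · obtain ⟨h1, h2, h5⟩ := hs; obtain ⟨g1, g2, g5⟩ := ht
      rw [h2, g2] at h; clear h2 g2 h5 g5 hle
      have h4 := sd1 _ _ h (by omega) (by omega); clear h; omega
    · obtain ⟨h1, h2, h5⟩ := hs; obtain ⟨g1, g2, g5⟩ := ht
      rw [h2, g2] at h; clear h2 g2 h5 g5 hle
      have h4 := sd1 _ _ h (by omega) (by omega); clear h; omega
    · obtain ⟨h1, h2, h5⟩ := hs; obtain ⟨g1, g2, g5⟩ := ht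
      rw [h2, g2] at h; clear h2 g2 h5 g5 hle
      rcases sd2 _ _ (by omega) h (by omega) (by omega) with h4 | h4 | h4 <;> (clear h; omega)
    · obtain ⟨h1, h2, h5⟩ := hs; obtain ⟨g1, g2, g5⟩ := ht
      rw [h2, g2] at h; clear h2 g2 h5 g5 hle
      have h4 := sd1 _ _ h (by omega) (by omega); clear h; omega
  · rcases ht with ht | ht | ht | ht | ht | ht | ht | ht | ht | ht | ht | ht
    · have h1 := hs.1; have g1 := ht.1; clear h hs ht; omega
    · have h1 := hs.1; have g1 := ht.1; clear h hs ht; omega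
    · have h1 := hs.1; have g1 := ht.1; clear h hs ht; omega
    · have h1 := hs.1; have g1 := ht.1; clear h hs ht; omega
    · have h1 := hs.1; have g1 := ht.1; clear h hs ht; omega
    · have h1 := hs.1; have g1 := ht.1; clear h hs ht; omega
    · have h1 := hs.1; have g1 := ht.1; clear h hs ht; omega
    · obtain ⟨h1, h2, h5⟩ := hs; obtain ⟨g1, g2, g5⟩ := ht
      rw [h2, g2] at h; clear h2 g2 h5 g5 hle
      rcases sd2 _ _ (by omega) h (by omega) (by omega) with h4 | h4 | h4 <;> (clear h; omega)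
    · obtain ⟨h1, h2, h5⟩ := hs; obtain ⟨g1, g2, g5⟩ := ht
      rw [h2, g2] at h; clear h2 g2 h5 g5 hle
      rcases sd2 _ _ (by omega) h (by omega) (by omega) with h4 | h4 | h4 <;> (clear h; omega)
    · obtain ⟨h1, h2, h5⟩ := hs; obtain ⟨g1, g2, g5⟩ := ht
      rw [h2, g2] at h; clear h2 g2 h5 g5 hle
      rcases sd2 _ _ (by omega) h (by omega) (by omega) with h4 | h4 | h4 <;> (clear h; omega)
    · obtain ⟨h1, h2, h5⟩ := hs; obtain ⟨g1, g2, g5⟩ := ht
      rw [h2, g2] at h; clear h2 g2 h5 g5 hle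
      rcases sd2 _ _ (by omega) h (by omega) (by omega) with h4 | h4 | h4 <;> (clear h; omega)
    · obtain ⟨h1, h2, h5⟩ := hs; obtain ⟨g1, g2, g5⟩ := ht
      rw [h2, g2] at h; clear h2 g2 h5 g5 hle
      rcases sd2 _ _ (by omega) h (by omega) (by omega) with h4 | h4 | h4 <;> (clear h; omega)
  · rcases ht with ht | ht | ht | ht | ht | ht | ht | ht | ht | ht | ht | ht
    · have h1 := hs.1; have g1 := ht.1; clear h hs ht; omega
    · have h1 := hs.1; have g1 := ht.1; clear h hs ht; omega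
    · have h1 := hs.1; have g1 := ht.1; clear h hs ht; omega
    · have h1 := hs.1; have g1 := ht.1; clear h hs ht; omega
    · have h1 := hs.1; have g1 := ht.1; clear h hs ht; omega
    · have h1 := hs.1; have g1 := ht.1; clear h hs ht; omega
    · have h1 := hs.1; have g1 := ht.1; clear h hs ht; omega
    · have h1 := hs.1; have g1 := ht.1; clear h hs ht; omega
    · obtain ⟨h1, h2, h5⟩ := hs; obtain ⟨g1, g2, g5⟩ := ht
      rw [h2, g2] at h; clear h2 g2 h5 g5 hle
      have h4 := sd1 _ _ h (by omega) (by omega); clear h; omega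
    · obtain ⟨h1, h2, h5⟩ := hs; obtain ⟨g1, g2, g5⟩ := ht
      rw [h2, g2] at h; clear h2 g2 h5 g5 hle
      have h4 := sd1 _ _ h (by omega) (by omega); clear h; omega
    · obtain ⟨h1, h2, h5⟩ := hs; obtain ⟨g1, g2, g5⟩ := ht
      rw [h2, g2] at h; clear h2 g2 h5 g5 hle
      rcases sd2 _ _ (by omega) h (by omega) (by omega) with h4 | h4 | h4 <;> (clear h; omega)
    · obtain ⟨h1, h2, h5⟩ := hs; obtain ⟨g1, g2, g5⟩ := ht
      rw [h2, g2] at h; clear h2 g2 h5 g5 hle
      have h4 := sd1 _ _ h (by omega) (by omega); clear h; omega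
  · rcases ht with ht | ht | ht | ht | ht | ht | ht | ht | ht | ht | ht | ht
    · have h1 := hs.1; have g1 := ht.1; clear h hs ht; omega
    · have h1 := hs.1; have g1 := ht.1; clear h hs ht; omega
    · have h1 := hs.1; have g1 := ht.1; clear h hs ht; omega
    · have h1 := hs.1; have g1 := ht.1; clear h hs ht; omega
    · have h1 := hs.1; have g1 := ht.1; clear h hs ht; omega
    · have h1 := hs.1; have g1 := ht.1; clear h hs ht; omega
    · have h1 := hs.1; have g1 := ht.1; clear h hs ht; omega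
    · have h1 := hs.1; have g1 := ht.1; clear h hs ht; omega
    · have h1 := hs.1; have g1 := ht.1; clear h hs ht; omega
    · obtain ⟨h1, h2, h5⟩ := hs; obtain ⟨g1, g2, g5⟩ := ht
      rw [h2, g2] at h; clear h2 g2 h5 g5 hle
      have h4 := sd1 _ _ h (by omega) (by omega); clear h; omega
    · obtain ⟨h1, h2, h5⟩ := hs; obtain ⟨g1, g2, g5⟩ := ht
      rw [h2, g2] at h; clear h2 g2 h5 g5 hle
      rcases sd2 _ _ (by omega) h (by omega) (by omega) with h4 | h4 | h4 <;> (clear h; omega)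
    · obtain ⟨h1, h2, h5⟩ := hs; obtain ⟨g1, g2, g5⟩ := ht
      rw [h2, g2] at h; clear h2 g2 h5 g5 hle
      have h4 := sd1 _ _ h (by omega) (by omega); clear h; omega
  · rcases ht with ht | ht | ht | ht | ht | ht | ht | ht | ht | ht | ht | ht
    · have h1 := hs.1; have g1 := ht.1; clear h hs ht; omega
    · have h1 := hs.1; have g1 := ht.1; clear h hs ht; omega
    · have h1 := hs.1; have g1 := ht.1; clear h hs ht; omega
    · have h1 := hs.1; have g1 := ht.1; clear h hs ht; omega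
    · have h1 := hs.1; have g1 := ht.1; clear h hs ht; omega
    · have h1 := hs.1; have g1 := ht.1; clear h hs ht; omega
    · have h1 := hs.1; have g1 := ht.1; clear h hs ht; omega
    · have h1 := hs.1; have g1 := ht.1; clear h hs ht; omega
    · have h1 := hs.1; have g1 := ht.1; clear h hs ht; omega
    · have h1 := hs.1; have g1 := ht.1; clear h hs ht; omega
    · obtain ⟨h1, h2, h5⟩ := hs; obtain ⟨g1, g2, g5⟩ := ht
      rw [h2, g2] at h; clear h2 g2 h5 g5 hle
      rcases sd2 _ _ (by omega) h (by omega) (by omega) with h4 | h4 | h4 <;> (clear h; omega)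
    · obtain ⟨h1, h2, h5⟩ := hs; obtain ⟨g1, g2, g5⟩ := ht
      rw [h2, g2] at h; clear h2 g2 h5 g5 hle
      rcases sd2 _ _ (by omega) h (by omega) (by omega) with h4 | h4 | h4 <;> (clear h; omega)
  · rcases ht with ht | ht | ht | ht | ht | ht | ht | ht | ht | ht | ht | ht
    · have h1 := hs.1; have g1 := ht.1; clear h hs ht; omega
    · have h1 := hs.1; have g1 := ht.1; clear h hs ht; omega
    · have h1 := hs.1; have g1 := ht.1; clear h hs ht; omega
    · have h1 := hs.1; have g1 := ht.1; clear h hs ht; omega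
    · have h1 := hs.1; have g1 := ht.1; clear h hs ht; omega
    · have h1 := hs.1; have g1 := ht.1; clear h hs ht; omega
    · have h1 := hs.1; have g1 := ht.1; clear h hs ht; omega
    · have h1 := hs.1; have g1 := ht.1; clear h hs ht; omega
    · have h1 := hs.1; have g1 := ht.1; clear h hs ht; omega
    · have h1 := hs.1; have g1 := ht.1; clear h hs ht; omega
    · have h1 := hs.1; have g1 := ht.1; clear h hs ht; omega
    · obtain ⟨h1, h2, h5⟩ := hs; obtain ⟨g1, g2, g5⟩ := ht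
      rw [h2, g2] at h; clear h2 g2 h5 g5 hle
      have h4 := sd1 _ _ h (by omega) (by omega); clear h; omega


theorem cb_b (n i j : ℕ) (h3 : (24 * n + 12) % 9 ≠ 0) (hi : i < 24 * n + 11) (hj : j < 24 * n + 11)
    (h : ((24 * n + 12 : ℕ) : ℤ) ∣ (cb n i - i) - (cb n j - j)) : i = j := by
  rcases Nat.le_total (i % 12) (j % 12) with hle | hle
  · exact cb_b0 n i j h3 hi hj hle h
  · refine (cb_b0 n j i h3 hj hi hle ?_).symm
    have h2 := dvd_neg.2 h
    rwa [neg_sub] at h2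

theorem cb_d0 (n i j : ℕ) (h3 : (24 * n + 12) % 9 ≠ 0) (hi : i < 24 * n + 10)
    (hj : j < 24 * n + 10) (hle : i % 12 ≤ j % 12)
    (h : ((24 * n + 12 : ℕ) : ℤ) ∣ (cb n (i + 1) - cb n i) - (cb n (j + 1) - cb n j)) : i = j := by
  obtain ⟨s, hs⟩ := cb_spec n i
  obtain ⟨t, ht⟩ := cb_spec n j
  rcases hs with hs | hs | hs | hs | hs | hs | hs | hs | hs | hs | hs | hs
  · rcases ht with ht | ht | ht | ht | ht | ht | ht | ht | ht | ht | ht | ht
    · obtain ⟨h1, h2, h5⟩ := hs; obtain ⟨g1, g2, g5⟩ := ht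
      rw [h2, g2, h5, g5] at h; clear h2 g2 h5 g5 hle
      have h4 := sd1 _ _ h (by omega) (by omega); clear h; omega
    · obtain ⟨h1, h2, h5⟩ := hs; obtain ⟨g1, g2, g5⟩ := ht
      rw [h2, g2, h5, g5] at h; clear h2 g2 h5 g5 hle
      rcases sd2 _ _ (by omega) h (by omega) (by omega) with h4 | h4 | h4 <;> (clear h; omega)
    · obtain ⟨h1, h2, h5⟩ := hs; obtain ⟨g1, g2, g5⟩ := ht
      rw [h2, g2, h5, g5] at h; clear h2 g2 h5 g5 hle
      rcases sd2 _ _ (by omega) h (by omega) (by omega) with h4 | h4 | h4 <;> (clear h; omega)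
    · obtain ⟨h1, h2, h5⟩ := hs; obtain ⟨g1, g2, g5⟩ := ht
      rw [h2, g2, h5, g5] at h; clear h2 g2 h5 g5 hle
      rcases sd2 _ _ (by omega) h (by omega) (by omega) with h4 | h4 | h4 <;> (clear h; omega)
    · obtain ⟨h1, h2, h5⟩ := hs; obtain ⟨g1, g2, g5⟩ := ht
      rw [h2, g2, h5, g5] at h; clear h2 g2 h5 g5 hle
      have h4 := sd1 _ _ h (by omega) (by omega); clear h; omega
    · obtain ⟨h1, h2, h5⟩ := hs; obtain ⟨g1, g2, g5⟩ := ht
      rw [h2, g2, h5, g5] at h; clear h2 g2 h5 g5 hle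
      have h4 := sd1 _ _ h (by omega) (by omega); clear h; omega
    · obtain ⟨h1, h2, h5⟩ := hs; obtain ⟨g1, g2, g5⟩ := ht
      rw [h2, g2, h5, g5] at h; clear h2 g2 h5 g5 hle
      rcases sd2 _ _ (by omega) h (by omega) (by omega) with h4 | h4 | h4 <;> (clear h; omega)
    · obtain ⟨h1, h2, h5⟩ := hs; obtain ⟨g1, g2, g5⟩ := ht
      rw [h2, g2, h5, g5] at h; clear h2 g2 h5 g5 hle
      rcases sd2 _ _ (by omega) h (by omega) (by omega) with h4 | h4 | h4 <;> (clear h; omega)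
    · obtain ⟨h1, h2, h5⟩ := hs; obtain ⟨g1, g2, g5⟩ := ht
      rw [h2, g2, h5, g5] at h; clear h2 g2 h5 g5 hle
      rcases sd2 _ _ (by omega) h (by omega) (by omega) with h4 | h4 | h4 <;> (clear h; omega)
    · obtain ⟨h1, h2, h5⟩ := hs; obtain ⟨g1, g2, g5⟩ := ht
      rw [h2, g2, h5, g5] at h; clear h2 g2 h5 g5 hle
      rcases sd2 _ _ (by omega) h (by omega) (by omega) with h4 | h4 | h4 <;> (clear h; omega)
    · obtain ⟨h1, h2, h5⟩ := hs; obtain ⟨g1, g2, g5⟩ := ht
      rw [h2, g2, h5, g5] at h; clear h2 g2 h5 g5 hle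
      rcases sd2 _ _ (by omega) h (by omega) (by omega) with h4 | h4 | h4 <;> (clear h; omega)
    · obtain ⟨h1, h2, h5⟩ := hs; obtain ⟨g1, g2, g5⟩ := ht
      rw [h2, g2, h5, g5] at h; clear h2 g2 h5 g5 hle
      rcases sd2 _ _ (by omega) h (by omega) (by omega) with h4 | h4 | h4 <;> (clear h; omega)
  · rcases ht with ht | ht | ht | ht | ht | ht | ht | ht | ht | ht | ht | ht
    · have h1 := hs.1; have g1 := ht.1; clear h hs ht; omega
    · obtain ⟨h1, h2, h5⟩ := hs; obtain ⟨g1, g2, g5⟩ := ht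
      rw [h2, g2, h5, g5] at h; clear h2 g2 h5 g5 hle
      have h4 := sd1 _ _ h (by omega) (by omega); clear h; omega
    · obtain ⟨h1, h2, h5⟩ := hs; obtain ⟨g1, g2, g5⟩ := ht
      rw [h2, g2, h5, g5] at h; clear h2 g2 h5 g5 hle
      rcases sd3 _ _ (by omega) h (by omega) (by omega) with h4 | h4 | h4 | h4 | h4 <;> (clear h; omega)
    · obtain ⟨h1, h2, h5⟩ := hs; obtain ⟨g1, g2, g5⟩ := ht
      rw [h2, g2, h5, g5] at h; clear h2 g2 h5 g5 hle
      rcases sd2 _ _ (by omega) h (by omega) (by omega) with h4 | h4 | h4 <;> (clear h; omega)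
    · obtain ⟨h1, h2, h5⟩ := hs; obtain ⟨g1, g2, g5⟩ := ht
      rw [h2, g2, h5, g5] at h; clear h2 g2 h5 g5 hle
      rcases sd2 _ _ (by omega) h (by omega) (by omega) with h4 | h4 | h4 <;> (clear h; omega)
    · obtain ⟨h1, h2, h5⟩ := hs; obtain ⟨g1, g2, g5⟩ := ht
      rw [h2, g2, h5, g5] at h; clear h2 g2 h5 g5 hle
      rcases sd2 _ _ (by omega) h (by omega) (by omega) with h4 | h4 | h4 <;> (clear h; omega)
    · obtain ⟨h1, h2, h5⟩ := hs; obtain ⟨g1, g2, g5⟩ := ht
      rw [h2, g2, h5, g5] at h; clear h2 g2 h5 g5 hle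
      rcases sd2 _ _ (by omega) h (by omega) (by omega) with h4 | h4 | h4 <;> (clear h; omega)
    · obtain ⟨h1, h2, h5⟩ := hs; obtain ⟨g1, g2, g5⟩ := ht
      rw [h2, g2, h5, g5] at h; clear h2 g2 h5 g5 hle
      rcases sd3 _ _ (by omega) h (by omega) (by omega) with h4 | h4 | h4 | h4 | h4 <;> (clear h; omega)
    · obtain ⟨h1, h2, h5⟩ := hs; obtain ⟨g1, g2, g5⟩ := ht
      rw [h2, g2, h5, g5] at h; clear h2 g2 h5 g5 hle
      rcases sd2 _ _ (by omega) h (by omega) (by omega) with h4 | h4 | h4 <;> (clear h; omega)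
    · obtain ⟨h1, h2, h5⟩ := hs; obtain ⟨g1, g2, g5⟩ := ht
      rw [h2, g2, h5, g5] at h; clear h2 g2 h5 g5 hle
      rcases sd2 _ _ (by omega) h (by omega) (by omega) with h4 | h4 | h4 <;> (clear h; omega)
    · obtain ⟨h1, h2, h5⟩ := hs; obtain ⟨g1, g2, g5⟩ := ht
      rw [h2, g2, h5, g5] at h; clear h2 g2 h5 g5 hle
      rcases sd2 _ _ (by omega) h (by omega) (by omega) with h4 | h4 | h4 <;> (clear h; omega)
    · obtain ⟨h1, h2, h5⟩ := hs; obtain ⟨g1, g2, g5⟩ := ht
      rw [h2, g2, h5, g5] at h; clear h2 g2 h5 g5 hle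
      rcases sd2 _ _ (by omega) h (by omega) (by omega) with h4 | h4 | h4 <;> (clear h; omega)
  · rcases ht with ht | ht | ht | ht | ht | ht | ht | ht | ht | ht | ht | ht
    · have h1 := hs.1; have g1 := ht.1; clear h hs ht; omega
    · have h1 := hs.1; have g1 := ht.1; clear h hs ht; omega
    · obtain ⟨h1, h2, h5⟩ := hs; obtain ⟨g1, g2, g5⟩ := ht
      rw [h2, g2, h5, g5] at h; clear h2 g2 h5 g5 hle
      rcases sd2 _ _ (by omega) h (by omega) (by omega) with h4 | h4 | h4 <;> (clear h; omega)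
    · obtain ⟨h1, h2, h5⟩ := hs; obtain ⟨g1, g2, g5⟩ := ht
      rw [h2, g2, h5, g5] at h; clear h2 g2 h5 g5 hle
      rcases sd3 _ _ (by omega) h (by omega) (by omega) with h4 | h4 | h4 | h4 | h4 <;> (clear h; omega)
    · obtain ⟨h1, h2, h5⟩ := hs; obtain ⟨g1, g2, g5⟩ := ht
      rw [h2, g2, h5, g5] at h; clear h2 g2 h5 g5 hle
      rcases sd2 _ _ (by omega) h (by omega) (by omega) with h4 | h4 | h4 <;> (clear h; omega)
    · obtain ⟨h1, h2, h5⟩ := hs; obtain ⟨g1, g2, g5⟩ := ht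
      rw [h2, g2, h5, g5] at h; clear h2 g2 h5 g5 hle
      rcases sd2 _ _ (by omega) h (by omega) (by omega) with h4 | h4 | h4 <;> (clear h; omega)
    · obtain ⟨h1, h2, h5⟩ := hs; obtain ⟨g1, g2, g5⟩ := ht
      rw [h2, g2, h5, g5] at h; clear h2 g2 h5 g5 hle
      rcases sd3 _ _ (by omega) h (by omega) (by omega) with h4 | h4 | h4 | h4 | h4 <;> (clear h; omega)
    · obtain ⟨h1, h2, h5⟩ := hs; obtain ⟨g1, g2, g5⟩ := ht
      rw [h2, g2, h5, g5] at h; clear h2 g2 h5 g5 hle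
      rcases sd2 _ _ (by omega) h (by omega) (by omega) with h4 | h4 | h4 <;> (clear h; omega)
    · obtain ⟨h1, h2, h5⟩ := hs; obtain ⟨g1, g2, g5⟩ := ht
      rw [h2, g2, h5, g5] at h; clear h2 g2 h5 g5 hle
      rcases sd2 _ _ (by omega) h (by omega) (by omega) with h4 | h4 | h4 <;> (clear h; omega)
    · obtain ⟨h1, h2, h5⟩ := hs; obtain ⟨g1, g2, g5⟩ := ht
      rw [h2, g2, h5, g5] at h; clear h2 g2 h5 g5 hle
      rcases sd3 _ _ (by omega) h (by omega) (by omega) with h4 | h4 | h4 | h4 | h4 <;> (clear h; omega)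
    · obtain ⟨h1, h2, h5⟩ := hs; obtain ⟨g1, g2, g5⟩ := ht
      rw [h2, g2, h5, g5] at h; clear h2 g2 h5 g5 hle
      rcases sd2 _ _ (by omega) h (by omega) (by omega) with h4 | h4 | h4 <;> (clear h; omega)
    · obtain ⟨h1, h2, h5⟩ := hs; obtain ⟨g1, g2, g5⟩ := ht
      rw [h2, g2, h5, g5] at h; clear h2 g2 h5 g5 hle
      rcases sd2 _ _ (by omega) h (by omega) (by omega) with h4 | h4 | h4 <;> (clear h; omega)
  · rcases ht with ht | ht | ht | ht | ht | ht | ht | ht | ht | ht | ht | ht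
    · have h1 := hs.1; have g1 := ht.1; clear h hs ht; omega
    · have h1 := hs.1; have g1 := ht.1; clear h hs ht; omega
    · have h1 := hs.1; have g1 := ht.1; clear h hs ht; omega
    · obtain ⟨h1, h2, h5⟩ := hs; obtain ⟨g1, g2, g5⟩ := ht
      rw [h2, g2, h5, g5] at h; clear h2 g2 h5 g5 hle
      rcases sd2 _ _ (by omega) h (by omega) (by omega) with h4 | h4 | h4 <;> (clear h; omega)
    · obtain ⟨h1, h2, h5⟩ := hs; obtain ⟨g1, g2, g5⟩ := ht
      rw [h2, g2, h5, g5] at h; clear h2 g2 h5 g5 hle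
      rcases sd2 _ _ (by omega) h (by omega) (by omega) with h4 | h4 | h4 <;> (clear h; omega)
    · obtain ⟨h1, h2, h5⟩ := hs; obtain ⟨g1, g2, g5⟩ := ht
      rw [h2, g2, h5, g5] at h; clear h2 g2 h5 g5 hle
      rcases sd2 _ _ (by omega) h (by omega) (by omega) with h4 | h4 | h4 <;> (clear h; omega)
    · obtain ⟨h1, h2, h5⟩ := hs; obtain ⟨g1, g2, g5⟩ := ht
      rw [h2, g2, h5, g5] at h; clear h2 g2 h5 g5 hle
      rcases sd2 _ _ (by omega) h (by omega) (by omega) with h4 | h4 | h4 <;> (clear h; omega)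
    · obtain ⟨h1, h2, h5⟩ := hs; obtain ⟨g1, g2, g5⟩ := ht
      rw [h2, g2, h5, g5] at h; clear h2 g2 h5 g5 hle
      rcases sd3 _ _ (by omega) h (by omega) (by omega) with h4 | h4 | h4 | h4 | h4 <;> (clear h; omega)
    · obtain ⟨h1, h2, h5⟩ := hs; obtain ⟨g1, g2, g5⟩ := ht
      rw [h2, g2, h5, g5] at h; clear h2 g2 h5 g5 hle
      rcases sd3 _ _ (by omega) h (by omega) (by omega) with h4 | h4 | h4 | h4 | h4 <;> (clear h; omega)
    · obtain ⟨h1, h2, h5⟩ := hs; obtain ⟨g1, g2, g5⟩ := ht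
      rw [h2, g2, h5, g5] at h; clear h2 g2 h5 g5 hle
      rcases sd2 _ _ (by omega) h (by omega) (by omega) with h4 | h4 | h4 <;> (clear h; omega)
    · obtain ⟨h1, h2, h5⟩ := hs; obtain ⟨g1, g2, g5⟩ := ht
      rw [h2, g2, h5, g5] at h; clear h2 g2 h5 g5 hle
      rcases sd3 _ _ (by omega) h (by omega) (by omega) with h4 | h4 | h4 | h4 | h4 <;> (clear h; omega)
    · obtain ⟨h1, h2, h5⟩ := hs; obtain ⟨g1, g2, g5⟩ := ht
      rw [h2, g2, h5, g5] at h; clear h2 g2 h5 g5 hle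
      rcases sd3 _ _ (by omega) h (by omega) (by omega) with h4 | h4 | h4 | h4 | h4 <;> (clear h; omega)
  · rcases ht with ht | ht | ht | ht | ht | ht | ht | ht | ht | ht | ht | ht
    · have h1 := hs.1; have g1 := ht.1; clear h hs ht; omega
    · have h1 := hs.1; have g1 := ht.1; clear h hs ht; omega
    · have h1 := hs.1; have g1 := ht.1; clear h hs ht; omega
    · have h1 := hs.1; have g1 := ht.1; clear h hs ht; omega
    · obtain ⟨h1, h2, h5⟩ := hs; obtain ⟨g1, g2, g5⟩ := ht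
      rw [h2, g2, h5, g5] at h; clear h2 g2 h5 g5 hle
      have h4 := sd1 _ _ h (by omega) (by omega); clear h; omega
    · obtain ⟨h1, h2, h5⟩ := hs; obtain ⟨g1, g2, g5⟩ := ht
      rw [h2, g2, h5, g5] at h; clear h2 g2 h5 g5 hle
      have h4 := sd1 _ _ h (by omega) (by omega); clear h; omega
    · obtain ⟨h1, h2, h5⟩ := hs; obtain ⟨g1, g2, g5⟩ := ht
      rw [h2, g2, h5, g5] at h; clear h2 g2 h5 g5 hle
      rcases sd2 _ _ (by omega) h (by omega) (by omega) with h4 | h4 | h4 <;> (clear h; omega)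
    · obtain ⟨h1, h2, h5⟩ := hs; obtain ⟨g1, g2, g5⟩ := ht
      rw [h2, g2, h5, g5] at h; clear h2 g2 h5 g5 hle
      rcases sd2 _ _ (by omega) h (by omega) (by omega) with h4 | h4 | h4 <;> (clear h; omega)
    · obtain ⟨h1, h2, h5⟩ := hs; obtain ⟨g1, g2, g5⟩ := ht
      rw [h2, g2, h5, g5] at h; clear h2 g2 h5 g5 hle
      rcases sd2 _ _ (by omega) h (by omega) (by omega) with h4 | h4 | h4 <;> (clear h; omega)
    · obtain ⟨h1, h2, h5⟩ := hs; obtain ⟨g1, g2, g5⟩ := ht
      rw [h2, g2, h5, g5] at h; clear h2 g2 h5 g5 hle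
      rcases sd2 _ _ (by omega) h (by omega) (by omega) with h4 | h4 | h4 <;> (clear h; omega)
    · obtain ⟨h1, h2, h5⟩ := hs; obtain ⟨g1, g2, g5⟩ := ht
      rw [h2, g2, h5, g5] at h; clear h2 g2 h5 g5 hle
      rcases sd2 _ _ (by omega) h (by omega) (by omega) with h4 | h4 | h4 <;> (clear h; omega)
    · obtain ⟨h1, h2, h5⟩ := hs; obtain ⟨g1, g2, g5⟩ := ht
      rw [h2, g2, h5, g5] at h; clear h2 g2 h5 g5 hle
      rcases sd2 _ _ (by omega) h (by omega) (by omega) with h4 | h4 | h4 <;> (clear h; omega)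
  · rcases ht with ht | ht | ht | ht | ht | ht | ht | ht | ht | ht | ht | ht
    · have h1 := hs.1; have g1 := ht.1; clear h hs ht; omega
    · have h1 := hs.1; have g1 := ht.1; clear h hs ht; omega
    · have h1 := hs.1; have g1 := ht.1; clear h hs ht; omega
    · have h1 := hs.1; have g1 := ht.1; clear h hs ht; omega
    · have h1 := hs.1; have g1 := ht.1; clear h hs ht; omega
    · obtain ⟨h1, h2, h5⟩ := hs; obtain ⟨g1, g2, g5⟩ := ht
      rw [h2, g2, h5, g5] at h; clear h2 g2 h5 g5 hle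
      have h4 := sd1 _ _ h (by omega) (by omega); clear h; omega
    · obtain ⟨h1, h2, h5⟩ := hs; obtain ⟨g1, g2, g5⟩ := ht
      rw [h2, g2, h5, g5] at h; clear h2 g2 h5 g5 hle
      rcases sd2 _ _ (by omega) h (by omega) (by omega) with h4 | h4 | h4 <;> (clear h; omega)
    · obtain ⟨h1, h2, h5⟩ := hs; obtain ⟨g1, g2, g5⟩ := ht
      rw [h2, g2, h5, g5] at h; clear h2 g2 h5 g5 hle
      rcases sd2 _ _ (by omega) h (by omega) (by omega) with h4 | h4 | h4 <;> (clear h; omega)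
    · obtain ⟨h1, h2, h5⟩ := hs; obtain ⟨g1, g2, g5⟩ := ht
      rw [h2, g2, h5, g5] at h; clear h2 g2 h5 g5 hle
      rcases sd2 _ _ (by omega) h (by omega) (by omega) with h4 | h4 | h4 <;> (clear h; omega)
    · obtain ⟨h1, h2, h5⟩ := hs; obtain ⟨g1, g2, g5⟩ := ht
      rw [h2, g2, h5, g5] at h; clear h2 g2 h5 g5 hle
      rcases sd2 _ _ (by omega) h (by omega) (by omega) with h4 | h4 | h4 <;> (clear h; omega)
    · obtain ⟨h1, h2, h5⟩ := hs; obtain ⟨g1, g2, g5⟩ := ht
      rw [h2, g2, h5, g5] at h; clear h2 g2 h5 g5 hle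
      rcases sd2 _ _ (by omega) h (by omega) (by omega) with h4 | h4 | h4 <;> (clear h; omega)
    · obtain ⟨h1, h2, h5⟩ := hs; obtain ⟨g1, g2, g5⟩ := ht
      rw [h2, g2, h5, g5] at h; clear h2 g2 h5 g5 hle
      rcases sd2 _ _ (by omega) h (by omega) (by omega) with h4 | h4 | h4 <;> (clear h; omega)
  · rcases ht with ht | ht | ht | ht | ht | ht | ht | ht | ht | ht | ht | ht
    · have h1 := hs.1; have g1 := ht.1; clear h hs ht; omega
    · have h1 := hs.1; have g1 := ht.1; clear h hs ht; omega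
    · have h1 := hs.1; have g1 := ht.1; clear h hs ht; omega
    · have h1 := hs.1; have g1 := ht.1; clear h hs ht; omega
    · have h1 := hs.1; have g1 := ht.1; clear h hs ht; omega
    · have h1 := hs.1; have g1 := ht.1; clear h hs ht; omega
    · obtain ⟨h1, h2, h5⟩ := hs; obtain ⟨g1, g2, g5⟩ := ht
      rw [h2, g2, h5, g5] at h; clear h2 g2 h5 g5 hle
      rcases sd2 _ _ (by omega) h (by omega) (by omega) with h4 | h4 | h4 <;> (clear h; omega)
    · obtain ⟨h1, h2, h5⟩ := hs; obtain ⟨g1, g2, g5⟩ := ht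
      rw [h2, g2, h5, g5] at h; clear h2 g2 h5 g5 hle
      rcases sd3 _ _ (by omega) h (by omega) (by omega) with h4 | h4 | h4 | h4 | h4 <;> (clear h; omega)
    · obtain ⟨h1, h2, h5⟩ := hs; obtain ⟨g1, g2, g5⟩ := ht
      rw [h2, g2, h5, g5] at h; clear h2 g2 h5 g5 hle
      rcases sd3 _ _ (by omega) h (by omega) (by omega) with h4 | h4 | h4 | h4 | h4 <;> (clear h; omega)
    · obtain ⟨h1, h2, h5⟩ := hs; obtain ⟨g1, g2, g5⟩ := ht
      rw [h2, g2, h5, g5] at h; clear h2 g2 h5 g5 hle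
      rcases sd2 _ _ (by omega) h (by omega) (by omega) with h4 | h4 | h4 <;> (clear h; omega)
    · obtain ⟨h1, h2, h5⟩ := hs; obtain ⟨g1, g2, g5⟩ := ht
      rw [h2, g2, h5, g5] at h; clear h2 g2 h5 g5 hle
      rcases sd3 _ _ (by omega) h (by omega) (by omega) with h4 | h4 | h4 | h4 | h4 <;> (clear h; omega)
    · obtain ⟨h1, h2, h5⟩ := hs; obtain ⟨g1, g2, g5⟩ := ht
      rw [h2, g2, h5, g5] at h; clear h2 g2 h5 g5 hle
      rcases sd3 _ _ (by omega) h (by omega) (by omega) with h4 | h4 | h4 | h4 | h4 <;> (clear h; omega)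
  · rcases ht with ht | ht | ht | ht | ht | ht | ht | ht | ht | ht | ht | ht
    · have h1 := hs.1; have g1 := ht.1; clear h hs ht; omega
    · have h1 := hs.1; have g1 := ht.1; clear h hs ht; omega
    · have h1 := hs.1; have g1 := ht.1; clear h hs ht; omega
    · have h1 := hs.1; have g1 := ht.1; clear h hs ht; omega
    · have h1 := hs.1; have g1 := ht.1; clear h hs ht; omega
    · have h1 := hs.1; have g1 := ht.1; clear h hs ht; omega
    · have h1 := hs.1; have g1 := ht.1; clear h hs ht; omega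
    · obtain ⟨h1, h2, h5⟩ := hs; obtain ⟨g1, g2, g5⟩ := ht
      rw [h2, g2, h5, g5] at h; clear h2 g2 h5 g5 hle
      rcases sd2 _ _ (by omega) h (by omega) (by omega) with h4 | h4 | h4 <;> (clear h; omega)
    · obtain ⟨h1, h2, h5⟩ := hs; obtain ⟨g1, g2, g5⟩ := ht
      rw [h2, g2, h5, g5] at h; clear h2 g2 h5 g5 hle
      rcases sd2 _ _ (by omega) h (by omega) (by omega) with h4 | h4 | h4 <;> (clear h; omega)
    · obtain ⟨h1, h2, h5⟩ := hs; obtain ⟨g1, g2, g5⟩ := ht
      rw [h2, g2, h5, g5] at h; clear h2 g2 h5 g5 hle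
      rcases sd3 _ _ (by omega) h (by omega) (by omega) with h4 | h4 | h4 | h4 | h4 <;> (clear h; omega)
    · obtain ⟨h1, h2, h5⟩ := hs; obtain ⟨g1, g2, g5⟩ := ht
      rw [h2, g2, h5, g5] at h; clear h2 g2 h5 g5 hle
      rcases sd2 _ _ (by omega) h (by omega) (by omega) with h4 | h4 | h4 <;> (clear h; omega)
    · obtain ⟨h1, h2, h5⟩ := hs; obtain ⟨g1, g2, g5⟩ := ht
      rw [h2, g2, h5, g5] at h; clear h2 g2 h5 g5 hle
      rcases sd2 _ _ (by omega) h (by omega) (by omega) with h4 | h4 | h4 <;> (clear h; omega)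
  · rcases ht with ht | ht | ht | ht | ht | ht | ht | ht | ht | ht | ht | ht
    · have h1 := hs.1; have g1 := ht.1; clear h hs ht; omega
    · have h1 := hs.1; have g1 := ht.1; clear h hs ht; omega
    · have h1 := hs.1; have g1 := ht.1; clear h hs ht; omega
    · have h1 := hs.1; have g1 := ht.1; clear h hs ht; omega
    · have h1 := hs.1; have g1 := ht.1; clear h hs ht; omega
    · have h1 := hs.1; have g1 := ht.1; clear h hs ht; omega
    · have h1 := hs.1; have g1 := ht.1; clear h hs ht; omega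
    · have h1 := hs.1; have g1 := ht.1; clear h hs ht; omega
    · obtain ⟨h1, h2, h5⟩ := hs; obtain ⟨g1, g2, g5⟩ := ht
      rw [h2, g2, h5, g5] at h; clear h2 g2 h5 g5 hle
      have h4 := sd1 _ _ h (by omega) (by omega); clear h; omega
    · obtain ⟨h1, h2, h5⟩ := hs; obtain ⟨g1, g2, g5⟩ := ht
      rw [h2, g2, h5, g5] at h; clear h2 g2 h5 g5 hle
      rcases sd3 _ _ (by omega) h (by omega) (by omega) with h4 | h4 | h4 | h4 | h4 <;> (clear h; omega)
    · obtain ⟨h1, h2, h5⟩ := hs; obtain ⟨g1, g2, g5⟩ := ht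
      rw [h2, g2, h5, g5] at h; clear h2 g2 h5 g5 hle
      have h4 := sd1 _ _ h (by omega) (by omega); clear h; omega
    · obtain ⟨h1, h2, h5⟩ := hs; obtain ⟨g1, g2, g5⟩ := ht
      rw [h2, g2, h5, g5] at h; clear h2 g2 h5 g5 hle
      have h4 := sd1 _ _ h (by omega) (by omega); clear h; omega
  · rcases ht with ht | ht | ht | ht | ht | ht | ht | ht | ht | ht | ht | ht
    · have h1 := hs.1; have g1 := ht.1; clear h hs ht; omega
    · have h1 := hs.1; have g1 := ht.1; clear h hs ht; omega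
    · have h1 := hs.1; have g1 := ht.1; clear h hs ht; omega
    · have h1 := hs.1; have g1 := ht.1; clear h hs ht; omega
    · have h1 := hs.1; have g1 := ht.1; clear h hs ht; omega
    · have h1 := hs.1; have g1 := ht.1; clear h hs ht; omega
    · have h1 := hs.1; have g1 := ht.1; clear h hs ht; omega
    · have h1 := hs.1; have g1 := ht.1; clear h hs ht; omega
    · have h1 := hs.1; have g1 := ht.1; clear h hs ht; omega
    · obtain ⟨h1, h2, h5⟩ := hs; obtain ⟨g1, g2, g5⟩ := ht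
      rw [h2, g2, h5, g5] at h; clear h2 g2 h5 g5 hle
      have h4 := sd1 _ _ h (by omega) (by omega); clear h; omega
    · obtain ⟨h1, h2, h5⟩ := hs; obtain ⟨g1, g2, g5⟩ := ht
      rw [h2, g2, h5, g5] at h; clear h2 g2 h5 g5 hle
      rcases sd3 _ _ (by omega) h (by omega) (by omega) with h4 | h4 | h4 | h4 | h4 <;> (clear h; omega)
    · obtain ⟨h1, h2, h5⟩ := hs; obtain ⟨g1, g2, g5⟩ := ht
      rw [h2, g2, h5, g5] at h; clear h2 g2 h5 g5 hle
      rcases sd3 _ _ (by omega) h (by omega) (by omega) with h4 | h4 | h4 | h4 | h4 <;> (clear h; omega)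
  · rcases ht with ht | ht | ht | ht | ht | ht | ht | ht | ht | ht | ht | ht
    · have h1 := hs.1; have g1 := ht.1; clear h hs ht; omega
    · have h1 := hs.1; have g1 := ht.1; clear h hs ht; omega
    · have h1 := hs.1; have g1 := ht.1; clear h hs ht; omega
    · have h1 := hs.1; have g1 := ht.1; clear h hs ht; omega
    · have h1 := hs.1; have g1 := ht.1; clear h hs ht; omega
    · have h1 := hs.1; have g1 := ht.1; clear h hs ht; omega
    · have h1 := hs.1; have g1 := ht.1; clear h hs ht; omega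
    · have h1 := hs.1; have g1 := ht.1; clear h hs ht; omega
    · have h1 := hs.1; have g1 := ht.1; clear h hs ht; omega
    · have h1 := hs.1; have g1 := ht.1; clear h hs ht; omega
    · obtain ⟨h1, h2, h5⟩ := hs; obtain ⟨g1, g2, g5⟩ := ht
      rw [h2, g2, h5, g5] at h; clear h2 g2 h5 g5 hle
      have h4 := sd1 _ _ h (by omega) (by omega); clear h; omega
    · obtain ⟨h1, h2, h5⟩ := hs; obtain ⟨g1, g2, g5⟩ := ht
      rw [h2, g2, h5, g5] at h; clear h2 g2 h5 g5 hle
      have h4 := sd1 _ _ h (by omega) (by omega); clear h; omega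
  · rcases ht with ht | ht | ht | ht | ht | ht | ht | ht | ht | ht | ht | ht
    · have h1 := hs.1; have g1 := ht.1; clear h hs ht; omega
    · have h1 := hs.1; have g1 := ht.1; clear h hs ht; omega
    · have h1 := hs.1; have g1 := ht.1; clear h hs ht; omega
    · have h1 := hs.1; have g1 := ht.1; clear h hs ht; omega
    · have h1 := hs.1; have g1 := ht.1; clear h hs ht; omega
    · have h1 := hs.1; have g1 := ht.1; clear h hs ht; omega
    · have h1 := hs.1; have g1 := ht.1; clear h hs ht; omega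
    · have h1 := hs.1; have g1 := ht.1; clear h hs ht; omega
    · have h1 := hs.1; have g1 := ht.1; clear h hs ht; omega
    · have h1 := hs.1; have g1 := ht.1; clear h hs ht; omega
    · have h1 := hs.1; have g1 := ht.1; clear h hs ht; omega
    · obtain ⟨h1, h2, h5⟩ := hs; obtain ⟨g1, g2, g5⟩ := ht
      rw [h2, g2, h5, g5] at h; clear h2 g2 h5 g5 hle
      have h4 := sd1 _ _ h (by omega) (by omega); clear h; omega


theorem cb_d (n i j : ℕ) (h3 : (24 * n + 12) % 9 ≠ 0) (hi : i < 24 * n + 10) (hj : j < 24 * n + 10)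
    (h : ((24 * n + 12 : ℕ) : ℤ) ∣ (cb n (i + 1) - cb n i) - (cb n (j + 1) - cb n j)) : i = j := by
  rcases Nat.le_total (i % 12) (j % 12) with hle | hle
  · exact cb_d0 n i j h3 hi hj hle h
  · refine (cb_d0 n j i h3 hj hi hle ?_).symm
    have h2 := dvd_neg.2 h
    rwa [neg_sub] at h2


theorem second (n : ℕ) (h9 : (24 * n + 12) % 9 ≠ 0) : Good (24 * n + 13) :=
  good_of_seq (24 * n + 13) (by omega) (cb n)
    (fun i j hi hj h => cb_c n i j h9 (by omega) (by omega) (by
      have : 24 * n + 13 - 1 = 24 * n + 12 := by omega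
      rwa [this] at h))
    (fun i j hi hj h => cb_b n i j h9 (by omega) (by omega) (by
      have : 24 * n + 13 - 1 = 24 * n + 12 := by omega
      rwa [this] at h))
    (fun i j hi hj h => cb_d n i j h9 (by omega) (by omega) (by
      have : 24 * n + 13 - 1 = 24 * n + 12 := by omega
      rwa [this] at h))

end Pool.Agent.V11283.KD.B
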