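import Pool.Agent.Results.MP_162c7e_co.SevenModEight

set_option autoImplicit false

/-! The first family of first rows: `r - 1 = 8 n + 4`, not divisible by three. -/

namespace Pool.Agent.V11283.KD.A

open Pool.Agent.Results.MP_162c7e_co.SevenModEight

theorem sd1 (m X : ℤ) (h : m ∣ X) (h1 : -m < X) (h2 : X < m) : X = 0 := by
  obtain ⟨k, rfl⟩ := h
  have hk1 : k < 1 := by
    by_contra hc
    push Not at hc
    nlinarith
  have hk2 : -1 < k := by
    by_contra hc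
    push Not at hc
    nlinarith
  have : k = 0 := by omega
  subst this; ring


theorem sd2 (m X : ℤ) (hm : 0 < m) (h : m ∣ X) (h1 : -(2 * m) < X) (h2 : X < 2 * m) :
    X = 0 ∨ X = 1 * m ∨ X = -(1 * m) := by
  obtain ⟨k, rfl⟩ := h
  have hk1 : k < 2 := by
    by_contra hc
    push Not at hc
    nlinarith
  have hk2 : -2 < k := by
    by_contra hc
    push Not at hc
    nlinarith
  interval_cases k <;> omega


theorem sd3 (m X : ℤ) (hm : 0 < m) (h : m ∣ X) (h1 : -(3 * m) < X) (h2 : X < 3 * m) :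
    X = 0 ∨ X = 1 * m ∨ X = -(1 * m) ∨ X = 2 * m ∨ X = -(2 * m) := by
  obtain ⟨k, rfl⟩ := h
  have hk1 : k < 3 := by
    by_contra hc
    push Not at hc
    nlinarith
  have hk2 : -3 < k := by
    by_contra hc
    push Not at hc
    nlinarith
  interval_cases k <;> omega


theorem sd4 (m X : ℤ) (hm : 0 < m) (h : m ∣ X) (h1 : -(4 * m) < X) (h2 : X < 4 * m) :
    X = 0 ∨ X = 1 * m ∨ X = -(1 * m) ∨ X = 2 * m ∨ X = -(2 * m) ∨ X = 3 * m ∨ X = -(3 * m) := by
  obtain ⟨k, rfl⟩ := h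
  have hk1 : k < 4 := by
    by_contra hc
    push Not at hc
    nlinarith
  have hk2 : -4 < k := by
    by_contra hc
    push Not at hc
    nlinarith
  interval_cases k <;> omega


theorem sd5 (m X : ℤ) (hm : 0 < m) (h : m ∣ X) (h1 : -(5 * m) < X) (h2 : X < 5 * m) :
    X = 0 ∨ X = 1 * m ∨ X = -(1 * m) ∨ X = 2 * m ∨ X = -(2 * m) ∨ X = 3 * m ∨ X = -(3 * m) ∨ X = 4 * m ∨ X = -(4 * m) := by
  obtain ⟨k, rfl⟩ := h
  have hk1 : k < 5 := by
    by_contra hc
    push Not at hc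
    nlinarith
  have hk2 : -5 < k := by
    by_contra hc
    push Not at hc
    nlinarith
  interval_cases k <;> omega


theorem sd6 (m X : ℤ) (hm : 0 < m) (h : m ∣ X) (h1 : -(6 * m) < X) (h2 : X < 6 * m) :
    X = 0 ∨ X = 1 * m ∨ X = -(1 * m) ∨ X = 2 * m ∨ X = -(2 * m) ∨ X = 3 * m ∨ X = -(3 * m) ∨ X = 4 * m ∨ X = -(4 * m) ∨ X = 5 * m ∨ X = -(5 * m) := by
  obtain ⟨k, rfl⟩ := h
  have hk1 : k < 6 := by
    by_contra hc
    push Not at hc
    nlinarith
  have hk2 : -6 < k := by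
    by_contra hc
    push Not at hc
    nlinarith
  interval_cases k <;> omega


/-- the sequence of the first family -/
def ca (n i : ℕ) : ℤ :=
  if i % 4 = 0 then -2 * ((i / 4 : ℕ) : ℤ)
  else if i % 4 = 1 then
    (if i / 4 < n then 4 * (n : ℤ) - 3 - 8 * ((i / 4 : ℕ) : ℤ)
      else 8 * (n : ℤ) - 1 - 8 * ((i / 4 : ℕ) : ℤ))
  else if i % 4 = 2 then
    (if i / 4 < n then 7 + 8 * ((i / 4 : ℕ) : ℤ) else 4 * (n : ℤ) + 9 + 8 * ((i / 4 : ℕ) : ℤ))
  else 2 + 2 * ((i / 4 : ℕ) : ℤ)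

theorem ca_spec (n i : ℕ) : ∃ t : ℕ,
    (t < n ∧ i = 4 * t ∧ ca n i = -2 * (t : ℤ) ∧ ca n (i + 1) = 4 * (n : ℤ) - 3 - 8 * (t : ℤ)) ∨
    (n ≤ t ∧ i = 4 * t ∧ ca n i = -2 * (t : ℤ) ∧ ca n (i + 1) = 8 * (n : ℤ) - 1 - 8 * (t : ℤ)) ∨
    (t < n ∧ i = 4 * t + 1 ∧ ca n i = 4 * (n : ℤ) - 3 - 8 * (t : ℤ) ∧ ca n (i + 1) = 7 + 8 * (t : ℤ)) ∨
    (n ≤ t ∧ i = 4 * t + 1 ∧ ca n i = 8 * (n : ℤ) - 1 - 8 * (t : ℤ) ∧ ca n (i + 1) = 4 * (n : ℤ) + 9 + 8 * (t : ℤ)) ∨
    (t < n ∧ i = 4 * t + 2 ∧ ca n i = 7 + 8 * (t : ℤ) ∧ ca n (i + 1) = 2 + 2 * (t : ℤ)) ∨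
    (n ≤ t ∧ i = 4 * t + 2 ∧ ca n i = 4 * (n : ℤ) + 9 + 8 * (t : ℤ) ∧ ca n (i + 1) = 2 + 2 * (t : ℤ)) ∨
    (0 ≤ t ∧ i = 4 * t + 3 ∧ ca n i = 2 + 2 * (t : ℤ) ∧ ca n (i + 1) = -2 * (t : ℤ) - 2) := by
  refine ⟨i / 4, ?_⟩
  have h8 : i % 4 < 4 := Nat.mod_lt _ (by norm_num)
  have hdm := Nat.div_add_mod i 4
  obtain ⟨t, ht⟩ : ∃ t, t = i / 4 := ⟨_, rfl⟩
  rw [← ht] at hdm ⊢
  rcases Nat.lt_or_ge t n with hn | hn <;> interval_cases h : i % 4
  · left
    have h1 : (i + 1) % 4 = 1 := by omega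
    have h2 : (i + 1) / 4 = t := by omega
    refine ⟨hn, by omega, ?_, ?_⟩
    · simp [ca, h, ← ht]
    · simp [ca, h1, h2, hn]
  · right; right; left
    have h1 : (i + 1) % 4 = 2 := by omega
    have h2 : (i + 1) / 4 = t := by omega
    refine ⟨hn, by omega, ?_, ?_⟩
    · simp [ca, h, ← ht, hn]
    · simp [ca, h1, h2, hn]
  · right; right; right; right; left
    have h1 : (i + 1) % 4 = 3 := by omega
    have h2 : (i + 1) / 4 = t := by omega
    refine ⟨hn, by omega, ?_, ?_⟩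
    · simp [ca, h, ← ht, hn]
    · simp [ca, h1, h2]
  · right; right; right; right; right; right
    have h1 : (i + 1) % 4 = 0 := by omega
    have h2 : (i + 1) / 4 = t + 1 := by omega
    refine ⟨Nat.zero_le _, by omega, ?_, ?_⟩
    · simp [ca, h, ← ht]
    · simp [ca, h1, h2]; ring
  · right; left
    have h1 : (i + 1) % 4 = 1 := by omega
    have h2 : (i + 1) / 4 = t := by omega
    refine ⟨hn, by omega, ?_, ?_⟩
    · simp [ca, h, ← ht]
    · simp [ca, h1, h2, Nat.not_lt.2 hn]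
  · right; right; right; left
    have h1 : (i + 1) % 4 = 2 := by omega
    have h2 : (i + 1) / 4 = t := by omega
    refine ⟨hn, by omega, ?_, ?_⟩
    · simp [ca, h, ← ht, Nat.not_lt.2 hn]
    · simp [ca, h1, h2, Nat.not_lt.2 hn]
  · right; right; right; right; right; left
    have h1 : (i + 1) % 4 = 3 := by omega
    have h2 : (i + 1) / 4 = t := by omega
    refine ⟨hn, by omega, ?_, ?_⟩
    · simp [ca, h, ← ht, Nat.not_lt.2 hn]
    · simp [ca, h1, h2]
  · right; right; right; right; right; right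
    have h1 : (i + 1) % 4 = 0 := by omega
    have h2 : (i + 1) / 4 = t + 1 := by omega
    refine ⟨Nat.zero_le _, by omega, ?_, ?_⟩
    · simp [ca, h, ← ht]
    · simp [ca, h1, h2]; ring


theorem ca_c0 (n i j : ℕ) (h3 : (8 * n + 4) % 3 ≠ 0) (hi : i < 8 * n + 3)
    (hj : j < 8 * n + 3) (hle : i % 4 ≤ j % 4)
    (h : ((8 * n + 4 : ℕ) : ℤ) ∣ ca n i - ca n j) : i = j := by
  obtain ⟨s, hs⟩ := ca_spec n i
  obtain ⟨t, ht⟩ := ca_spec n j
  rcases hs with hs | hs | hs | hs | hs | hs | hs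
  · rcases ht with ht | ht | ht | ht | ht | ht | ht
    · obtain ⟨h0, h1, h2, h5⟩ := hs; obtain ⟨g0, g1, g2, g5⟩ := ht
      rw [h2, g2] at h; clear h2 g2 h5 g5 hle
      have h4 := sd1 _ _ h (by omega) (by omega); clear h; omega
    · obtain ⟨h0, h1, h2, h5⟩ := hs; obtain ⟨g0, g1, g2, g5⟩ := ht
      rw [h2, g2] at h; clear h2 g2 h5 g5 hle
      have h4 := sd1 _ _ h (by omega) (by omega); clear h; omega
    · obtain ⟨h0, h1, h2, h5⟩ := hs; obtain ⟨g0, g1, g2, g5⟩ := ht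
      rw [h2, g2] at h; clear h2 g2 h5 g5 hle
      have h4 := sd1 _ _ h (by omega) (by omega); clear h; omega
    · obtain ⟨h0, h1, h2, h5⟩ := hs; obtain ⟨g0, g1, g2, g5⟩ := ht
      rw [h2, g2] at h; clear h2 g2 h5 g5 hle
      have h4 := sd1 _ _ h (by omega) (by omega); clear h; omega
    · obtain ⟨h0, h1, h2, h5⟩ := hs; obtain ⟨g0, g1, g2, g5⟩ := ht
      rw [h2, g2] at h; clear h2 g2 h5 g5 hle
      rcases sd2 _ _ (by omega) h (by omega) (by omega) with h4 | h4 | h4 <;> (clear h; omega)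
    · obtain ⟨h0, h1, h2, h5⟩ := hs; obtain ⟨g0, g1, g2, g5⟩ := ht
      rw [h2, g2] at h; clear h2 g2 h5 g5 hle
      rcases sd3 _ _ (by omega) h (by omega) (by omega) with h4 | h4 | h4 | h4 | h4 <;> (clear h; omega)
    · obtain ⟨h0, h1, h2, h5⟩ := hs; obtain ⟨g0, g1, g2, g5⟩ := ht
      rw [h2, g2] at h; clear h2 g2 h5 g5 hle
      have h4 := sd1 _ _ h (by omega) (by omega); clear h; omega
  · rcases ht with ht | ht | ht | ht | ht | ht | ht
    · obtain ⟨h0, h1, h2, h5⟩ := hs; obtain ⟨g0, g1, g2, g5⟩ := ht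
      rw [h2, g2] at h; clear h2 g2 h5 g5 hle
      have h4 := sd1 _ _ h (by omega) (by omega); clear h; omega
    · obtain ⟨h0, h1, h2, h5⟩ := hs; obtain ⟨g0, g1, g2, g5⟩ := ht
      rw [h2, g2] at h; clear h2 g2 h5 g5 hle
      have h4 := sd1 _ _ h (by omega) (by omega); clear h; omega
    · obtain ⟨h0, h1, h2, h5⟩ := hs; obtain ⟨g0, g1, g2, g5⟩ := ht
      rw [h2, g2] at h; clear h2 g2 h5 g5 hle
      have h4 := sd1 _ _ h (by omega) (by omega); clear h; omega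
    · obtain ⟨h0, h1, h2, h5⟩ := hs; obtain ⟨g0, g1, g2, g5⟩ := ht
      rw [h2, g2] at h; clear h2 g2 h5 g5 hle
      have h4 := sd1 _ _ h (by omega) (by omega); clear h; omega
    · obtain ⟨h0, h1, h2, h5⟩ := hs; obtain ⟨g0, g1, g2, g5⟩ := ht
      rw [h2, g2] at h; clear h2 g2 h5 g5 hle
      rcases sd2 _ _ (by omega) h (by omega) (by omega) with h4 | h4 | h4 <;> (clear h; omega)
    · obtain ⟨h0, h1, h2, h5⟩ := hs; obtain ⟨g0, g1, g2, g5⟩ := ht
      rw [h2, g2] at h; clear h2 g2 h5 g5 hle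
      rcases sd3 _ _ (by omega) h (by omega) (by omega) with h4 | h4 | h4 | h4 | h4 <;> (clear h; omega)
    · obtain ⟨h0, h1, h2, h5⟩ := hs; obtain ⟨g0, g1, g2, g5⟩ := ht
      rw [h2, g2] at h; clear h2 g2 h5 g5 hle
      have h4 := sd1 _ _ h (by omega) (by omega); clear h; omega
  · rcases ht with ht | ht | ht | ht | ht | ht | ht
    · have h1 := hs.2.1; have g1 := ht.2.1; clear h hs ht; omega
    · have h1 := hs.2.1; have g1 := ht.2.1; clear h hs ht; omega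
    · obtain ⟨h0, h1, h2, h5⟩ := hs; obtain ⟨g0, g1, g2, g5⟩ := ht
      rw [h2, g2] at h; clear h2 g2 h5 g5 hle
      have h4 := sd1 _ _ h (by omega) (by omega); clear h; omega
    · obtain ⟨h0, h1, h2, h5⟩ := hs; obtain ⟨g0, g1, g2, g5⟩ := ht
      rw [h2, g2] at h; clear h2 g2 h5 g5 hle
      rcases sd2 _ _ (by omega) h (by omega) (by omega) with h4 | h4 | h4 <;> (clear h; omega)
    · obtain ⟨h0, h1, h2, h5⟩ := hs; obtain ⟨g0, g1, g2, g5⟩ := ht
      rw [h2, g2] at h; clear h2 g2 h5 g5 hle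
      rcases sd2 _ _ (by omega) h (by omega) (by omega) with h4 | h4 | h4 <;> (clear h; omega)
    · obtain ⟨h0, h1, h2, h5⟩ := hs; obtain ⟨g0, g1, g2, g5⟩ := ht
      rw [h2, g2] at h; clear h2 g2 h5 g5 hle
      rcases sd3 _ _ (by omega) h (by omega) (by omega) with h4 | h4 | h4 | h4 | h4 <;> (clear h; omega)
    · obtain ⟨h0, h1, h2, h5⟩ := hs; obtain ⟨g0, g1, g2, g5⟩ := ht
      rw [h2, g2] at h; clear h2 g2 h5 g5 hle
      have h4 := sd1 _ _ h (by omega) (by omega); clear h; omega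
  · rcases ht with ht | ht | ht | ht | ht | ht | ht
    · have h1 := hs.2.1; have g1 := ht.2.1; clear h hs ht; omega
    · have h1 := hs.2.1; have g1 := ht.2.1; clear h hs ht; omega
    · obtain ⟨h0, h1, h2, h5⟩ := hs; obtain ⟨g0, g1, g2, g5⟩ := ht
      rw [h2, g2] at h; clear h2 g2 h5 g5 hle
      rcases sd2 _ _ (by omega) h (by omega) (by omega) with h4 | h4 | h4 <;> (clear h; omega)
    · obtain ⟨h0, h1, h2, h5⟩ := hs; obtain ⟨g0, g1, g2, g5⟩ := ht
      rw [h2, g2] at h; clear h2 g2 h5 g5 hle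
      have h4 := sd1 _ _ h (by omega) (by omega); clear h; omega
    · obtain ⟨h0, h1, h2, h5⟩ := hs; obtain ⟨g0, g1, g2, g5⟩ := ht
      rw [h2, g2] at h; clear h2 g2 h5 g5 hle
      rcases sd2 _ _ (by omega) h (by omega) (by omega) with h4 | h4 | h4 <;> (clear h; omega)
    · obtain ⟨h0, h1, h2, h5⟩ := hs; obtain ⟨g0, g1, g2, g5⟩ := ht
      rw [h2, g2] at h; clear h2 g2 h5 g5 hle
      rcases sd4 _ _ (by omega) h (by omega) (by omega) with h4 | h4 | h4 | h4 | h4 | h4 | h4 <;> (clear h; omega)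
    · obtain ⟨h0, h1, h2, h5⟩ := hs; obtain ⟨g0, g1, g2, g5⟩ := ht
      rw [h2, g2] at h; clear h2 g2 h5 g5 hle
      rcases sd2 _ _ (by omega) h (by omega) (by omega) with h4 | h4 | h4 <;> (clear h; omega)
  · rcases ht with ht | ht | ht | ht | ht | ht | ht
    · have h1 := hs.2.1; have g1 := ht.2.1; clear h hs ht; omega
    · have h1 := hs.2.1; have g1 := ht.2.1; clear h hs ht; omega
    · have h1 := hs.2.1; have g1 := ht.2.1; clear h hs ht; omega
    · have h1 := hs.2.1; have g1 := ht.2.1; clear h hs ht; omega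
    · obtain ⟨h0, h1, h2, h5⟩ := hs; obtain ⟨g0, g1, g2, g5⟩ := ht
      rw [h2, g2] at h; clear h2 g2 h5 g5 hle
      have h4 := sd1 _ _ h (by omega) (by omega); clear h; omega
    · obtain ⟨h0, h1, h2, h5⟩ := hs; obtain ⟨g0, g1, g2, g5⟩ := ht
      rw [h2, g2] at h; clear h2 g2 h5 g5 hle
      rcases sd3 _ _ (by omega) h (by omega) (by omega) with h4 | h4 | h4 | h4 | h4 <;> (clear h; omega)
    · obtain ⟨h0, h1, h2, h5⟩ := hs; obtain ⟨g0, g1, g2, g5⟩ := ht
      rw [h2, g2] at h; clear h2 g2 h5 g5 hle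
      have h4 := sd1 _ _ h (by omega) (by omega); clear h; omega
  · rcases ht with ht | ht | ht | ht | ht | ht | ht
    · have h1 := hs.2.1; have g1 := ht.2.1; clear h hs ht; omega
    · have h1 := hs.2.1; have g1 := ht.2.1; clear h hs ht; omega
    · have h1 := hs.2.1; have g1 := ht.2.1; clear h hs ht; omega
    · have h1 := hs.2.1; have g1 := ht.2.1; clear h hs ht; omega
    · obtain ⟨h0, h1, h2, h5⟩ := hs; obtain ⟨g0, g1, g2, g5⟩ := ht
      rw [h2, g2] at h; clear h2 g2 h5 g5 hle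
      rcases sd3 _ _ (by omega) h (by omega) (by omega) with h4 | h4 | h4 | h4 | h4 <;> (clear h; omega)
    · obtain ⟨h0, h1, h2, h5⟩ := hs; obtain ⟨g0, g1, g2, g5⟩ := ht
      rw [h2, g2] at h; clear h2 g2 h5 g5 hle
      have h4 := sd1 _ _ h (by omega) (by omega); clear h; omega
    · obtain ⟨h0, h1, h2, h5⟩ := hs; obtain ⟨g0, g1, g2, g5⟩ := ht
      rw [h2, g2] at h; clear h2 g2 h5 g5 hle
      rcases sd3 _ _ (by omega) h (by omega) (by omega) with h4 | h4 | h4 | h4 | h4 <;> (clear h; omega)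
  · rcases ht with ht | ht | ht | ht | ht | ht | ht
    · have h1 := hs.2.1; have g1 := ht.2.1; clear h hs ht; omega
    · have h1 := hs.2.1; have g1 := ht.2.1; clear h hs ht; omega
    · have h1 := hs.2.1; have g1 := ht.2.1; clear h hs ht; omega
    · have h1 := hs.2.1; have g1 := ht.2.1; clear h hs ht; omega
    · have h1 := hs.2.1; have g1 := ht.2.1; clear h hs ht; omega
    · have h1 := hs.2.1; have g1 := ht.2.1; clear h hs ht; omega
    · obtain ⟨h0, h1, h2, h5⟩ := hs; obtain ⟨g0, g1, g2, g5⟩ := ht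
      rw [h2, g2] at h; clear h2 g2 h5 g5 hle
      have h4 := sd1 _ _ h (by omega) (by omega); clear h; omega


theorem ca_c (n i j : ℕ) (h3 : (8 * n + 4) % 3 ≠ 0) (hi : i < 8 * n + 3) (hj : j < 8 * n + 3)
    (h : ((8 * n + 4 : ℕ) : ℤ) ∣ ca n i - ca n j) : i = j := by
  rcases Nat.le_total (i % 4) (j % 4) with hle | hle
  · exact ca_c0 n i j h3 hi hj hle h
  · refine (ca_c0 n j i h3 hj hi hle ?_).symm
    have h2 := dvd_neg.2 h
    rwa [neg_sub] at h2

theorem ca_b0 (n i j : ℕ) (h3 : (8 * n + 4) % 3 ≠ 0) (hi : i < 8 * n + 3)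
    (hj : j < 8 * n + 3) (hle : i % 4 ≤ j % 4)
    (h : ((8 * n + 4 : ℕ) : ℤ) ∣ (ca n i - i) - (ca n j - j)) : i = j := by
  obtain ⟨s, hs⟩ := ca_spec n i
  obtain ⟨t, ht⟩ := ca_spec n j
  rcases hs with hs | hs | hs | hs | hs | hs | hs
  · rcases ht with ht | ht | ht | ht | ht | ht | ht
    · obtain ⟨h0, h1, h2, h5⟩ := hs; obtain ⟨g0, g1, g2, g5⟩ := ht
      rw [h2, g2] at h; clear h2 g2 h5 g5 hle
      have h4 := sd1 _ _ h (by omega) (by omega); clear h; omega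
    · obtain ⟨h0, h1, h2, h5⟩ := hs; obtain ⟨g0, g1, g2, g5⟩ := ht
      rw [h2, g2] at h; clear h2 g2 h5 g5 hle
      rcases sd2 _ _ (by omega) h (by omega) (by omega) with h4 | h4 | h4 <;> (clear h; omega)
    · obtain ⟨h0, h1, h2, h5⟩ := hs; obtain ⟨g0, g1, g2, g5⟩ := ht
      rw [h2, g2] at h; clear h2 g2 h5 g5 hle
      rcases sd2 _ _ (by omega) h (by omega) (by omega) with h4 | h4 | h4 <;> (clear h; omega)
    · obtain ⟨h0, h1, h2, h5⟩ := hs; obtain ⟨g0, g1, g2, g5⟩ := ht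
      rw [h2, g2] at h; clear h2 g2 h5 g5 hle
      rcases sd2 _ _ (by omega) h (by omega) (by omega) with h4 | h4 | h4 <;> (clear h; omega)
    · obtain ⟨h0, h1, h2, h5⟩ := hs; obtain ⟨g0, g1, g2, g5⟩ := ht
      rw [h2, g2] at h; clear h2 g2 h5 g5 hle
      rcases sd2 _ _ (by omega) h (by omega) (by omega) with h4 | h4 | h4 <;> (clear h; omega)
    · obtain ⟨h0, h1, h2, h5⟩ := hs; obtain ⟨g0, g1, g2, g5⟩ := ht
      rw [h2, g2] at h; clear h2 g2 h5 g5 hle
      rcases sd3 _ _ (by omega) h (by omega) (by omega) with h4 | h4 | h4 | h4 | h4 <;> (clear h; omega)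
    · obtain ⟨h0, h1, h2, h5⟩ := hs; obtain ⟨g0, g1, g2, g5⟩ := ht
      rw [h2, g2] at h; clear h2 g2 h5 g5 hle
      have h4 := sd1 _ _ h (by omega) (by omega); clear h; omega
  · rcases ht with ht | ht | ht | ht | ht | ht | ht
    · obtain ⟨h0, h1, h2, h5⟩ := hs; obtain ⟨g0, g1, g2, g5⟩ := ht
      rw [h2, g2] at h; clear h2 g2 h5 g5 hle
      rcases sd2 _ _ (by omega) h (by omega) (by omega) with h4 | h4 | h4 <;> (clear h; omega)
    · obtain ⟨h0, h1, h2, h5⟩ := hs; obtain ⟨g0, g1, g2, g5⟩ := ht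
      rw [h2, g2] at h; clear h2 g2 h5 g5 hle
      have h4 := sd1 _ _ h (by omega) (by omega); clear h; omega
    · obtain ⟨h0, h1, h2, h5⟩ := hs; obtain ⟨g0, g1, g2, g5⟩ := ht
      rw [h2, g2] at h; clear h2 g2 h5 g5 hle
      rcases sd2 _ _ (by omega) h (by omega) (by omega) with h4 | h4 | h4 <;> (clear h; omega)
    · obtain ⟨h0, h1, h2, h5⟩ := hs; obtain ⟨g0, g1, g2, g5⟩ := ht
      rw [h2, g2] at h; clear h2 g2 h5 g5 hle
      rcases sd2 _ _ (by omega) h (by omega) (by omega) with h4 | h4 | h4 <;> (clear h; omega)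
    · obtain ⟨h0, h1, h2, h5⟩ := hs; obtain ⟨g0, g1, g2, g5⟩ := ht
      rw [h2, g2] at h; clear h2 g2 h5 g5 hle
      rcases sd2 _ _ (by omega) h (by omega) (by omega) with h4 | h4 | h4 <;> (clear h; omega)
    · obtain ⟨h0, h1, h2, h5⟩ := hs; obtain ⟨g0, g1, g2, g5⟩ := ht
      rw [h2, g2] at h; clear h2 g2 h5 g5 hle
      rcases sd3 _ _ (by omega) h (by omega) (by omega) with h4 | h4 | h4 | h4 | h4 <;> (clear h; omega)
    · obtain ⟨h0, h1, h2, h5⟩ := hs; obtain ⟨g0, g1, g2, g5⟩ := ht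
      rw [h2, g2] at h; clear h2 g2 h5 g5 hle
      rcases sd2 _ _ (by omega) h (by omega) (by omega) with h4 | h4 | h4 <;> (clear h; omega)
  · rcases ht with ht | ht | ht | ht | ht | ht | ht
    · have h1 := hs.2.1; have g1 := ht.2.1; clear h hs ht; omega
    · have h1 := hs.2.1; have g1 := ht.2.1; clear h hs ht; omega
    · obtain ⟨h0, h1, h2, h5⟩ := hs; obtain ⟨g0, g1, g2, g5⟩ := ht
      rw [h2, g2] at h; clear h2 g2 h5 g5 hle
      rcases sd2 _ _ (by omega) h (by omega) (by omega) with h4 | h4 | h4 <;> (clear h; omega)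
    · obtain ⟨h0, h1, h2, h5⟩ := hs; obtain ⟨g0, g1, g2, g5⟩ := ht
      rw [h2, g2] at h; clear h2 g2 h5 g5 hle
      rcases sd3 _ _ (by omega) h (by omega) (by omega) with h4 | h4 | h4 | h4 | h4 <;> (clear h; omega)
    · obtain ⟨h0, h1, h2, h5⟩ := hs; obtain ⟨g0, g1, g2, g5⟩ := ht
      rw [h2, g2] at h; clear h2 g2 h5 g5 hle
      rcases sd2 _ _ (by omega) h (by omega) (by omega) with h4 | h4 | h4 <;> (clear h; omega)
    · obtain ⟨h0, h1, h2, h5⟩ := hs; obtain ⟨g0, g1, g2, g5⟩ := ht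
      rw [h2, g2] at h; clear h2 g2 h5 g5 hle
      rcases sd3 _ _ (by omega) h (by omega) (by omega) with h4 | h4 | h4 | h4 | h4 <;> (clear h; omega)
    · obtain ⟨h0, h1, h2, h5⟩ := hs; obtain ⟨g0, g1, g2, g5⟩ := ht
      rw [h2, g2] at h; clear h2 g2 h5 g5 hle
      have h4 := sd1 _ _ h (by omega) (by omega); clear h; omega
  · rcases ht with ht | ht | ht | ht | ht | ht | ht
    · have h1 := hs.2.1; have g1 := ht.2.1; clear h hs ht; omega
    · have h1 := hs.2.1; have g1 := ht.2.1; clear h hs ht; omega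
    · obtain ⟨h0, h1, h2, h5⟩ := hs; obtain ⟨g0, g1, g2, g5⟩ := ht
      rw [h2, g2] at h; clear h2 g2 h5 g5 hle
      rcases sd3 _ _ (by omega) h (by omega) (by omega) with h4 | h4 | h4 | h4 | h4 <;> (clear h; omega)
    · obtain ⟨h0, h1, h2, h5⟩ := hs; obtain ⟨g0, g1, g2, g5⟩ := ht
      rw [h2, g2] at h; clear h2 g2 h5 g5 hle
      rcases sd2 _ _ (by omega) h (by omega) (by omega) with h4 | h4 | h4 <;> (clear h; omega)
    · obtain ⟨h0, h1, h2, h5⟩ := hs; obtain ⟨g0, g1, g2, g5⟩ := ht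
      rw [h2, g2] at h; clear h2 g2 h5 g5 hle
      rcases sd3 _ _ (by omega) h (by omega) (by omega) with h4 | h4 | h4 | h4 | h4 <;> (clear h; omega)
    · obtain ⟨h0, h1, h2, h5⟩ := hs; obtain ⟨g0, g1, g2, g5⟩ := ht
      rw [h2, g2] at h; clear h2 g2 h5 g5 hle
      rcases sd4 _ _ (by omega) h (by omega) (by omega) with h4 | h4 | h4 | h4 | h4 | h4 | h4 <;> (clear h; omega)
    · obtain ⟨h0, h1, h2, h5⟩ := hs; obtain ⟨g0, g1, g2, g5⟩ := ht
      rw [h2, g2] at h; clear h2 g2 h5 g5 hle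
      rcases sd2 _ _ (by omega) h (by omega) (by omega) with h4 | h4 | h4 <;> (clear h; omega)
  · rcases ht with ht | ht | ht | ht | ht | ht | ht
    · have h1 := hs.2.1; have g1 := ht.2.1; clear h hs ht; omega
    · have h1 := hs.2.1; have g1 := ht.2.1; clear h hs ht; omega
    · have h1 := hs.2.1; have g1 := ht.2.1; clear h hs ht; omega
    · have h1 := hs.2.1; have g1 := ht.2.1; clear h hs ht; omega
    · obtain ⟨h0, h1, h2, h5⟩ := hs; obtain ⟨g0, g1, g2, g5⟩ := ht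
      rw [h2, g2] at h; clear h2 g2 h5 g5 hle
      have h4 := sd1 _ _ h (by omega) (by omega); clear h; omega
    · obtain ⟨h0, h1, h2, h5⟩ := hs; obtain ⟨g0, g1, g2, g5⟩ := ht
      rw [h2, g2] at h; clear h2 g2 h5 g5 hle
      rcases sd2 _ _ (by omega) h (by omega) (by omega) with h4 | h4 | h4 <;> (clear h; omega)
    · obtain ⟨h0, h1, h2, h5⟩ := hs; obtain ⟨g0, g1, g2, g5⟩ := ht
      rw [h2, g2] at h; clear h2 g2 h5 g5 hle
      have h4 := sd1 _ _ h (by omega) (by omega); clear h; omega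
  · rcases ht with ht | ht | ht | ht | ht | ht | ht
    · have h1 := hs.2.1; have g1 := ht.2.1; clear h hs ht; omega
    · have h1 := hs.2.1; have g1 := ht.2.1; clear h hs ht; omega
    · have h1 := hs.2.1; have g1 := ht.2.1; clear h hs ht; omega
    · have h1 := hs.2.1; have g1 := ht.2.1; clear h hs ht; omega
    · obtain ⟨h0, h1, h2, h5⟩ := hs; obtain ⟨g0, g1, g2, g5⟩ := ht
      rw [h2, g2] at h; clear h2 g2 h5 g5 hle
      rcases sd2 _ _ (by omega) h (by omega) (by omega) with h4 | h4 | h4 <;> (clear h; omega)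
    · obtain ⟨h0, h1, h2, h5⟩ := hs; obtain ⟨g0, g1, g2, g5⟩ := ht
      rw [h2, g2] at h; clear h2 g2 h5 g5 hle
      have h4 := sd1 _ _ h (by omega) (by omega); clear h; omega
    · obtain ⟨h0, h1, h2, h5⟩ := hs; obtain ⟨g0, g1, g2, g5⟩ := ht
      rw [h2, g2] at h; clear h2 g2 h5 g5 hle
      rcases sd2 _ _ (by omega) h (by omega) (by omega) with h4 | h4 | h4 <;> (clear h; omega)
  · rcases ht with ht | ht | ht | ht | ht | ht | ht
    · have h1 := hs.2.1; have g1 := ht.2.1; clear h hs ht; omega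
    · have h1 := hs.2.1; have g1 := ht.2.1; clear h hs ht; omega
    · have h1 := hs.2.1; have g1 := ht.2.1; clear h hs ht; omega
    · have h1 := hs.2.1; have g1 := ht.2.1; clear h hs ht; omega
    · have h1 := hs.2.1; have g1 := ht.2.1; clear h hs ht; omega
    · have h1 := hs.2.1; have g1 := ht.2.1; clear h hs ht; omega
    · obtain ⟨h0, h1, h2, h5⟩ := hs; obtain ⟨g0, g1, g2, g5⟩ := ht
      rw [h2, g2] at h; clear h2 g2 h5 g5 hle
      have h4 := sd1 _ _ h (by omega) (by omega); clear h; omega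


theorem ca_b (n i j : ℕ) (h3 : (8 * n + 4) % 3 ≠ 0) (hi : i < 8 * n + 3) (hj : j < 8 * n + 3)
    (h : ((8 * n + 4 : ℕ) : ℤ) ∣ (ca n i - i) - (ca n j - j)) : i = j := by
  rcases Nat.le_total (i % 4) (j % 4) with hle | hle
  · exact ca_b0 n i j h3 hi hj hle h
  · refine (ca_b0 n j i h3 hj hi hle ?_).symm
    have h2 := dvd_neg.2 h
    rwa [neg_sub] at h2

theorem ca_d0 (n i j : ℕ) (h3 : (8 * n + 4) % 3 ≠ 0) (hi : i < 8 * n + 2)
    (hj : j < 8 * n + 2) (hle : i % 4 ≤ j % 4)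
    (h : ((8 * n + 4 : ℕ) : ℤ) ∣ (ca n (i + 1) - ca n i) - (ca n (j + 1) - ca n j)) : i = j := by
  obtain ⟨s, hs⟩ := ca_spec n i
  obtain ⟨t, ht⟩ := ca_spec n j
  rcases hs with hs | hs | hs | hs | hs | hs | hs
  · rcases ht with ht | ht | ht | ht | ht | ht | ht
    · obtain ⟨h0, h1, h2, h5⟩ := hs; obtain ⟨g0, g1, g2, g5⟩ := ht
      rw [h2, g2, h5, g5] at h; clear h2 g2 h5 g5 hle
      have h4 := sd1 _ _ h (by omega) (by omega); clear h; omega
    · obtain ⟨h0, h1, h2, h5⟩ := hs; obtain ⟨g0, g1, g2, g5⟩ := ht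
      rw [h2, g2, h5, g5] at h; clear h2 g2 h5 g5 hle
      have h4 := sd1 _ _ h (by omega) (by omega); clear h; omega
    · obtain ⟨h0, h1, h2, h5⟩ := hs; obtain ⟨g0, g1, g2, g5⟩ := ht
      rw [h2, g2, h5, g5] at h; clear h2 g2 h5 g5 hle
      rcases sd2 _ _ (by omega) h (by omega) (by omega) with h4 | h4 | h4 <;> (clear h; omega)
    · obtain ⟨h0, h1, h2, h5⟩ := hs; obtain ⟨g0, g1, g2, g5⟩ := ht
      rw [h2, g2, h5, g5] at h; clear h2 g2 h5 g5 hle
      rcases sd4 _ _ (by omega) h (by omega) (by omega) with h4 | h4 | h4 | h4 | h4 | h4 | h4 <;> (clear h; omega)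
    · obtain ⟨h0, h1, h2, h5⟩ := hs; obtain ⟨g0, g1, g2, g5⟩ := ht
      rw [h2, g2, h5, g5] at h; clear h2 g2 h5 g5 hle
      rcases sd2 _ _ (by omega) h (by omega) (by omega) with h4 | h4 | h4 <;> (clear h; omega)
    · obtain ⟨h0, h1, h2, h5⟩ := hs; obtain ⟨g0, g1, g2, g5⟩ := ht
      rw [h2, g2, h5, g5] at h; clear h2 g2 h5 g5 hle
      rcases sd3 _ _ (by omega) h (by omega) (by omega) with h4 | h4 | h4 | h4 | h4 <;> (clear h; omega)
    · obtain ⟨h0, h1, h2, h5⟩ := hs; obtain ⟨g0, g1, g2, g5⟩ := ht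
      rw [h2, g2, h5, g5] at h; clear h2 g2 h5 g5 hle
      rcases sd2 _ _ (by omega) h (by omega) (by omega) with h4 | h4 | h4 <;> (clear h; omega)
  · rcases ht with ht | ht | ht | ht | ht | ht | ht
    · obtain ⟨h0, h1, h2, h5⟩ := hs; obtain ⟨g0, g1, g2, g5⟩ := ht
      rw [h2, g2, h5, g5] at h; clear h2 g2 h5 g5 hle
      have h4 := sd1 _ _ h (by omega) (by omega); clear h; omega
    · obtain ⟨h0, h1, h2, h5⟩ := hs; obtain ⟨g0, g1, g2, g5⟩ := ht
      rw [h2, g2, h5, g5] at h; clear h2 g2 h5 g5 hle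
      have h4 := sd1 _ _ h (by omega) (by omega); clear h; omega
    · obtain ⟨h0, h1, h2, h5⟩ := hs; obtain ⟨g0, g1, g2, g5⟩ := ht
      rw [h2, g2, h5, g5] at h; clear h2 g2 h5 g5 hle
      rcases sd2 _ _ (by omega) h (by omega) (by omega) with h4 | h4 | h4 <;> (clear h; omega)
    · obtain ⟨h0, h1, h2, h5⟩ := hs; obtain ⟨g0, g1, g2, g5⟩ := ht
      rw [h2, g2, h5, g5] at h; clear h2 g2 h5 g5 hle
      rcases sd4 _ _ (by omega) h (by omega) (by omega) with h4 | h4 | h4 | h4 | h4 | h4 | h4 <;> (clear h; omega)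
    · obtain ⟨h0, h1, h2, h5⟩ := hs; obtain ⟨g0, g1, g2, g5⟩ := ht
      rw [h2, g2, h5, g5] at h; clear h2 g2 h5 g5 hle
      have h4 := sd1 _ _ h (by omega) (by omega); clear h; omega
    · obtain ⟨h0, h1, h2, h5⟩ := hs; obtain ⟨g0, g1, g2, g5⟩ := ht
      rw [h2, g2, h5, g5] at h; clear h2 g2 h5 g5 hle
      rcases sd3 _ _ (by omega) h (by omega) (by omega) with h4 | h4 | h4 | h4 | h4 <;> (clear h; omega)
    · obtain ⟨h0, h1, h2, h5⟩ := hs; obtain ⟨g0, g1, g2, g5⟩ := ht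
      rw [h2, g2, h5, g5] at h; clear h2 g2 h5 g5 hle
      rcases sd2 _ _ (by omega) h (by omega) (by omega) with h4 | h4 | h4 <;> (clear h; omega)
  · rcases ht with ht | ht | ht | ht | ht | ht | ht
    · have h1 := hs.2.1; have g1 := ht.2.1; clear h hs ht; omega
    · have h1 := hs.2.1; have g1 := ht.2.1; clear h hs ht; omega
    · obtain ⟨h0, h1, h2, h5⟩ := hs; obtain ⟨g0, g1, g2, g5⟩ := ht
      rw [h2, g2, h5, g5] at h; clear h2 g2 h5 g5 hle
      rcases sd2 _ _ (by omega) h (by omega) (by omega) with h4 | h4 | h4 <;> (clear h; omega)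
    · obtain ⟨h0, h1, h2, h5⟩ := hs; obtain ⟨g0, g1, g2, g5⟩ := ht
      rw [h2, g2, h5, g5] at h; clear h2 g2 h5 g5 hle
      rcases sd4 _ _ (by omega) h (by omega) (by omega) with h4 | h4 | h4 | h4 | h4 | h4 | h4 <;> (clear h; omega)
    · obtain ⟨h0, h1, h2, h5⟩ := hs; obtain ⟨g0, g1, g2, g5⟩ := ht
      rw [h2, g2, h5, g5] at h; clear h2 g2 h5 g5 hle
      rcases sd3 _ _ (by omega) h (by omega) (by omega) with h4 | h4 | h4 | h4 | h4 <;> (clear h; omega)
    · obtain ⟨h0, h1, h2, h5⟩ := hs; obtain ⟨g0, g1, g2, g5⟩ := ht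
      rw [h2, g2, h5, g5] at h; clear h2 g2 h5 g5 hle
      rcases sd4 _ _ (by omega) h (by omega) (by omega) with h4 | h4 | h4 | h4 | h4 | h4 | h4 <;> (clear h; omega)
    · obtain ⟨h0, h1, h2, h5⟩ := hs; obtain ⟨g0, g1, g2, g5⟩ := ht
      rw [h2, g2, h5, g5] at h; clear h2 g2 h5 g5 hle
      rcases sd3 _ _ (by omega) h (by omega) (by omega) with h4 | h4 | h4 | h4 | h4 <;> (clear h; omega)
  · rcases ht with ht | ht | ht | ht | ht | ht | ht
    · have h1 := hs.2.1; have g1 := ht.2.1; clear h hs ht; omega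
    · have h1 := hs.2.1; have g1 := ht.2.1; clear h hs ht; omega
    · obtain ⟨h0, h1, h2, h5⟩ := hs; obtain ⟨g0, g1, g2, g5⟩ := ht
      rw [h2, g2, h5, g5] at h; clear h2 g2 h5 g5 hle
      rcases sd4 _ _ (by omega) h (by omega) (by omega) with h4 | h4 | h4 | h4 | h4 | h4 | h4 <;> (clear h; omega)
    · obtain ⟨h0, h1, h2, h5⟩ := hs; obtain ⟨g0, g1, g2, g5⟩ := ht
      rw [h2, g2, h5, g5] at h; clear h2 g2 h5 g5 hle
      rcases sd2 _ _ (by omega) h (by omega) (by omega) with h4 | h4 | h4 <;> (clear h; omega)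
    · obtain ⟨h0, h1, h2, h5⟩ := hs; obtain ⟨g0, g1, g2, g5⟩ := ht
      rw [h2, g2, h5, g5] at h; clear h2 g2 h5 g5 hle
      rcases sd5 _ _ (by omega) h (by omega) (by omega) with h4 | h4 | h4 | h4 | h4 | h4 | h4 | h4 | h4 <;> (clear h; omega)
    · obtain ⟨h0, h1, h2, h5⟩ := hs; obtain ⟨g0, g1, g2, g5⟩ := ht
      rw [h2, g2, h5, g5] at h; clear h2 g2 h5 g5 hle
      rcases sd6 _ _ (by omega) h (by omega) (by omega) with h4 | h4 | h4 | h4 | h4 | h4 | h4 | h4 | h4 | h4 | h4 <;> (clear h; omega)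
    · obtain ⟨h0, h1, h2, h5⟩ := hs; obtain ⟨g0, g1, g2, g5⟩ := ht
      rw [h2, g2, h5, g5] at h; clear h2 g2 h5 g5 hle
      rcases sd5 _ _ (by omega) h (by omega) (by omega) with h4 | h4 | h4 | h4 | h4 | h4 | h4 | h4 | h4 <;> (clear h; omega)
  · rcases ht with ht | ht | ht | ht | ht | ht | ht
    · have h1 := hs.2.1; have g1 := ht.2.1; clear h hs ht; omega
    · have h1 := hs.2.1; have g1 := ht.2.1; clear h hs ht; omega
    · have h1 := hs.2.1; have g1 := ht.2.1; clear h hs ht; omega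
    · have h1 := hs.2.1; have g1 := ht.2.1; clear h hs ht; omega
    · obtain ⟨h0, h1, h2, h5⟩ := hs; obtain ⟨g0, g1, g2, g5⟩ := ht
      rw [h2, g2, h5, g5] at h; clear h2 g2 h5 g5 hle
      have h4 := sd1 _ _ h (by omega) (by omega); clear h; omega
    · obtain ⟨h0, h1, h2, h5⟩ := hs; obtain ⟨g0, g1, g2, g5⟩ := ht
      rw [h2, g2, h5, g5] at h; clear h2 g2 h5 g5 hle
      rcases sd2 _ _ (by omega) h (by omega) (by omega) with h4 | h4 | h4 <;> (clear h; omega)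
    · obtain ⟨h0, h1, h2, h5⟩ := hs; obtain ⟨g0, g1, g2, g5⟩ := ht
      rw [h2, g2, h5, g5] at h; clear h2 g2 h5 g5 hle
      have h4 := sd1 _ _ h (by omega) (by omega); clear h; omega
  · rcases ht with ht | ht | ht | ht | ht | ht | ht
    · have h1 := hs.2.1; have g1 := ht.2.1; clear h hs ht; omega
    · have h1 := hs.2.1; have g1 := ht.2.1; clear h hs ht; omega
    · have h1 := hs.2.1; have g1 := ht.2.1; clear h hs ht; omega
    · have h1 := hs.2.1; have g1 := ht.2.1; clear h hs ht; omega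
    · obtain ⟨h0, h1, h2, h5⟩ := hs; obtain ⟨g0, g1, g2, g5⟩ := ht
      rw [h2, g2, h5, g5] at h; clear h2 g2 h5 g5 hle
      rcases sd2 _ _ (by omega) h (by omega) (by omega) with h4 | h4 | h4 <;> (clear h; omega)
    · obtain ⟨h0, h1, h2, h5⟩ := hs; obtain ⟨g0, g1, g2, g5⟩ := ht
      rw [h2, g2, h5, g5] at h; clear h2 g2 h5 g5 hle
      have h4 := sd1 _ _ h (by omega) (by omega); clear h; omega
    · obtain ⟨h0, h1, h2, h5⟩ := hs; obtain ⟨g0, g1, g2, g5⟩ := ht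
      rw [h2, g2, h5, g5] at h; clear h2 g2 h5 g5 hle
      rcases sd2 _ _ (by omega) h (by omega) (by omega) with h4 | h4 | h4 <;> (clear h; omega)
  · rcases ht with ht | ht | ht | ht | ht | ht | ht
    · have h1 := hs.2.1; have g1 := ht.2.1; clear h hs ht; omega
    · have h1 := hs.2.1; have g1 := ht.2.1; clear h hs ht; omega
    · have h1 := hs.2.1; have g1 := ht.2.1; clear h hs ht; omega
    · have h1 := hs.2.1; have g1 := ht.2.1; clear h hs ht; omega
    · have h1 := hs.2.1; have g1 := ht.2.1; clear h hs ht; omega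
    · have h1 := hs.2.1; have g1 := ht.2.1; clear h hs ht; omega
    · obtain ⟨h0, h1, h2, h5⟩ := hs; obtain ⟨g0, g1, g2, g5⟩ := ht
      rw [h2, g2, h5, g5] at h; clear h2 g2 h5 g5 hle
      have h4 := sd1 _ _ h (by omega) (by omega); clear h; omega


theorem ca_d (n i j : ℕ) (h3 : (8 * n + 4) % 3 ≠ 0) (hi : i < 8 * n + 2) (hj : j < 8 * n + 2)
    (h : ((8 * n + 4 : ℕ) : ℤ) ∣ (ca n (i + 1) - ca n i) - (ca n (j + 1) - ca n j)) : i = j := by
  rcases Nat.le_total (i % 4) (j % 4) with hle | hle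
  · exact ca_d0 n i j h3 hi hj hle h
  · refine (ca_d0 n j i h3 hj hi hle ?_).symm
    have h2 := dvd_neg.2 h
    rwa [neg_sub] at h2


theorem first (n : ℕ) (hn : 1 ≤ n) (h3 : (8 * n + 4) % 3 ≠ 0) : Good (8 * n + 5) :=
  good_of_seq (8 * n + 5) (by omega) (ca n)
    (fun i j hi hj h => ca_c n i j h3 (by omega) (by omega) (by
      have : 8 * n + 5 - 1 = 8 * n + 4 := by omega
      rwa [this] at h))
    (fun i j hi hj h => ca_b n i j h3 (by omega) (by omega) (by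
      have : 8 * n + 5 - 1 = 8 * n + 4 := by omega
      rwa [this] at h))
    (fun i j hi hj h => ca_d n i j h3 (by omega) (by omega) (by
      have : 8 * n + 5 - 1 = 8 * n + 4 := by omega
      rwa [this] at h))

end Pool.Agent.V11283.KD.A
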